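import Pool.Agent.H98.CE.Targets

/-!
# The exact constant of the gap of the copolymer critical curve: assembly of the lower half
-/

set_option autoImplicit false

open MeasureTheory ProbabilityTheory Filter Topology
open Pool.Agent.H95 Pool.Agent.H95.Cop
open Pool.Agent.H55.CG (pz VV Mo)

namespace Pool.Agent.H98.CE

/-- the moments of the charges -/
lemma exp_map (μ : Measure ℝ) [IsProbabilityMeasure μ]
    (hexp : ∀ t : ℝ, Integrable (fun z => Real.exp (t * z)) μ) (lam h : ℝ) (t : ℝ) :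
    Integrable (fun z => Real.exp (t * z)) (μ.map (fun z => -2 * lam * (z + h))) := by
  rw [integrable_map_measure (by fun_prop) (by fun_prop)]
  have h1 := (hexp (t * (-2 * lam))).mul_const (Real.exp (t * (-2 * lam * h)))
  refine h1.congr (Filter.Eventually.of_forall fun z => ?_)
  simp only [Function.comp_apply]
  rw [← Real.exp_add]
  congr 1
  ring

/-- all levels -/
lemma levels (hSTA : T_STA) (hNUC : T_NUC) (d ϑ s e1 η e : ℝ) (J ms : ℕ) (hd : 0 < d)
    (hϑ : 0 < ϑ) (he : 0 < e) (he1 : e < e1) (h1 : e1 < 1) (hη : 0 < η) (hms : 1 ≤ ms)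
    (h0 : OBs d ϑ s e1 η 0 J (t0 d η e J)) (l : ℕ) :
    OBs d ϑ s e1 η l (ms ^ l * J) (tl d η e J ms l) := by
  induction l with
  | zero => simpa [tl] using h0
  | succ l ih =>
    have h2 := hSTA d ϑ s e1 η e l (ms ^ l * J) ms (tl d η e J ms l) hd hϑ he he1 h1 hη hms ih
      (fun j => (hNUC d η J ms l j).2 hη.le e he.le)
    have h3 : ms * (ms ^ l * J) = ms ^ (l + 1) * J := by ring
    rw [h3] at h2
    exact h2

/-- the choice of the parameters -/
lemma start (hBSA : T_BSA) (hDSA : T_DSA) (d η r : ℝ) (J : ℕ) (hd : 0 < d) (hη : 0 < η)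
    (hr0 : 0 < r) (hr1 : r < 1) : ∃ ϑ s e1 : ℝ, 0 < ϑ ∧ 0 < s ∧ s < 1 / 2 ∧ r < e1 ∧ e1 < 1 ∧
      OBs d ϑ s e1 η 0 J (t0 d η (r * r) J) := by
  set τ : ℝ := (1 - r) / 16 with hτ
  have hτ0 : 0 < τ := by rw [hτ]; linarith
  have hτ1 : τ ≤ 1 / 16 := by rw [hτ]; linarith
  have hrτ : r = 1 - 16 * τ := by rw [hτ]; ring
  have hsq : Real.sqrt (τ ^ 2) = τ := Real.sqrt_sq hτ0.le
  have hτ2 : τ ^ 2 ≤ 1 / 16 * τ := by nlinarith
  have hJ : (0 : ℝ) < 4 * ((J : ℝ) + 1) := by positivity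
  refine ⟨τ ^ 2, 1 / (4 * ((J : ℝ) + 1)), 1 - τ, by positivity, by positivity, ?_, by linarith,
    by linarith, ?_⟩
  · rw [div_lt_div_iff₀ hJ (by norm_num)]
    have : (0 : ℝ) ≤ J := Nat.cast_nonneg J
    linarith
  · have hexp : 1 - 4 * τ ^ 2 ≤ Real.exp (-4 * τ ^ 2) := by
      have := Real.add_one_le_exp (-4 * τ ^ 2)
      linarith
    have h1 := hBSA d (τ ^ 2) (1 / (4 * ((J : ℝ) + 1))) (1 - τ) η r J hd (by positivity)
      (by nlinarith) (by positivity) (by rw [one_div, inv_mul_cancel₀ hJ.ne']) (by linarith)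
      (by linarith) hη hr0.le (by
        have h2 : (1 - τ) * (1 - 4 * τ ^ 2) ≤ (1 - τ) * Real.exp (-4 * τ ^ 2) :=
          mul_le_mul_of_nonneg_left hexp (by linarith)
        refine lt_of_lt_of_le ?_ h2
        nlinarith)
    have h3 := hDSA d (τ ^ 2) (1 / (4 * ((J : ℝ) + 1))) (1 - τ) η r J (t0 d η r J) hd
      (by positivity) (by nlinarith) (by linarith) (by linarith) hη h1 (fun j => by
        unfold t0
        split_ifs
        · positivity
        · exact le_rfl) hr0.le (by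
        rw [hsq]
        have e1 : 2 - (1 - τ) * (1 - 2 * τ) = 1 + 3 * τ - 2 * τ ^ 2 := by ring
        rw [e1]
        have h4 : (1 + 3 * τ - 2 * τ ^ 2) ^ 2 ≤ (1 + 3 * τ) ^ 2 := by
          apply pow_le_pow_left₀ <;> nlinarith
        have h5 : (1 + 3 * τ) ^ 2 ≤ 1 + 7 * τ := by nlinarith
        calc r * (1 + 3 * τ - 2 * τ ^ 2) ^ 2 ≤ r * (1 + 7 * τ) :=
              mul_le_mul_of_nonneg_left (h4.trans h5) hr0.le
          _ < 1 := by rw [hrτ]; nlinarith)
    have h6 : (fun j => r * t0 d η r J j) = t0 d η (r * r) J := by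
      funext j
      unfold t0
      split_ifs
      · ring
      · ring
    rw [h6] at h3
    exact h3

theorem pf_LOW (hNUM : T_NUM) (hBSA : T_BSA) (hDSA : T_DSA) (hSTA : T_STA) (hFNA : T_FNA)
    (hNUC : T_NUC) (hHKS : T_HKS) (hMOE : T_MOE) (hEND : T_END) : T_LOW := by
  intro ε hε
  set d : ℝ := 2 - min ε 1 with hd
  have hm0 : 0 < min ε 1 := lt_min hε one_pos
  have hm1 : min ε 1 ≤ 1 := min_le_right _ _
  have hd0 : 0 < d := by rw [hd]; linarith
  have hd2 : d < 2 := by rw [hd]; linarith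
  have hdε : 2 - ε ≤ d := by rw [hd]; linarith [min_le_left ε 1]
  obtain ⟨η, hη, l, ms, J, hms, e0, he00, he01, hnum⟩ := hNUM d hd0 hd2
  set e : ℝ := (1 + e0) / 2 with he
  have he0 : e0 < e := by rw [he]; linarith
  have he1 : e < 1 := by rw [he]; linarith
  have hepos : 0 < e := by linarith
  set r : ℝ := Real.sqrt e with hr
  have hr0 : 0 < r := Real.sqrt_pos.mpr hepos
  have hrr : r * r = e := Real.mul_self_sqrt hepos.le
  have hr1 : r < 1 := by
    rw [hr, Real.sqrt_lt' one_pos]; linarith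
  have her : e < r := by nlinarith
  obtain ⟨ϑ, s, e1, hϑ, hs0, hs1, hre, he11, hst⟩ := start hBSA hDSA d η r J hd0 hη hr0 hr1
  rw [hrr] at hst
  have hlev := levels hSTA hNUC d ϑ s e1 η e J ms hd0 hϑ hepos (by linarith) he11 hη hms hst l
  have hfin := hFNA d ϑ s e1 η e l (ms ^ l * J) (tl d η e J ms l) hd0 hϑ hepos (by linarith) he11
    hη hlev (fun j => (hNUC d η J ms l j).2 hη.le e hepos.le) (hnum e he0 he1.le)
  have he10 : 0 < e1 := by linarith
  -- small `α`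
  have hsmall : ∀ᶠ α in 𝓝[>] (0 : ℝ), α < min (1 / 20) ((1 - e1) / 4) := by
    have hpos : 0 < min (1 / 20 : ℝ) ((1 - e1) / 4) := lt_min (by norm_num) (by linarith)
    exact mem_nhdsWithin_of_mem_nhds (Iio_mem_nhds hpos)
  filter_upwards [hfin, hsmall, self_mem_nhdsWithin] with α hα hαs hα0
  have hα0' : 0 < α := hα0
  intro K hK0 cK hcK hK μ hμ hexp hmean hvar
  have hα1 : α < 1 / 20 := hαs.trans_le (min_le_left _ _)
  have hα2 : α < (1 - e1) / 4 := hαs.trans_le (min_le_right _ _)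
  have hα' : 0 < 1 + α := by linarith
  obtain ⟨c, n0, hc, hkk, hell⟩ := hHKS α e1 hα0' (by linarith) he10 (by nlinarith) K hK0 cK hcK hK
  have hγ9 : 9 / 10 ≤ 1 / (1 + α) := by
    rw [div_le_div_iff₀ (by norm_num) hα']; linarith
  have hγ1 : 1 / (1 + α) < 1 := by
    rw [div_lt_one hα']; linarith
  have hδ0 : 0 < d * α ^ 2 := by positivity
  have hδ1 : d * α ^ 2 ≤ 1 / 100 := by nlinarith
  have hmoe := hMOE μ hexp hmean hvar (1 / (1 + α)) (d * α ^ 2) ϑ s hγ9 hγ1 hδ0 hδ1 hϑ hs0 hs1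
  have htend : Tendsto (fun lam : ℝ => ⌈ϑ / lam ^ 2⌉₊) (𝓝[>] (0 : ℝ)) atTop := by
    have h1 : Tendsto (fun lam : ℝ => ϑ / lam ^ 2) (𝓝[>] (0 : ℝ)) atTop := by
      have h2 : Tendsto (fun lam : ℝ => lam ^ 2) (𝓝[>] (0 : ℝ)) (𝓝[>] (0 : ℝ)) := by
        rw [tendsto_nhdsWithin_iff]
        refine ⟨?_, ?_⟩
        · have : Tendsto (fun lam : ℝ => lam ^ 2) (𝓝 (0 : ℝ)) (𝓝 (0 ^ 2)) :=
            (continuous_pow 2).tendsto 0
          rw [zero_pow two_ne_zero] at this
          exact this.mono_left nhdsWithin_le_nhds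
        · filter_upwards [self_mem_nhdsWithin] with lam hlam
          have hlam1 : 0 < lam := hlam
          exact pow_pos hlam1 2
      simp_rw [div_eq_mul_inv]
      exact (tendsto_inv_nhdsGT_zero.comp h2).const_mul_atTop hϑ
    exact tendsto_nat_ceil_atTop.comp h1
  have hev := htend.eventually (hell.and ((eventually_ge_atTop n0).and (eventually_ge_atTop 1)))
  filter_upwards [hmoe, hev, self_mem_nhdsWithin] with lam hmo hev hpos
  have hlam0 : 0 < lam := hpos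
  obtain ⟨⟨hHK, hkap⟩, hn0, hℓ1⟩ := hev
  set ℓ : ℕ := ⌈ϑ / lam ^ 2⌉₊ with hℓ
  set h : ℝ := (1 / (1 + α) + d * α ^ 2) * lam with hh
  have hh0 : 0 ≤ h := by positivity
  have hfm : Measurable (fun z : ℝ => -2 * lam * (z + h)) := by fun_prop
  have hprob : IsProbabilityMeasure (μ.map (fun z => -2 * lam * (z + h))) :=
    Measure.isProbabilityMeasure_map hfm.aemeasurable
  obtain ⟨n, s', hn, hs', hlt⟩ := hα K (μ.map (fun z => -2 * lam * (z + h))) ℓ
    ⟨hprob, exp_map μ hexp lam h, hℓ1, hHK, hmo⟩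
  obtain ⟨f, hf0, hf⟩ := hEND α hα0' K hK0 cK hcK hK μ hexp c n0 hc hkk ℓ n (e1 * α / 2) lam h s'
    hℓ1 hn0 (by positivity) (by nlinarith) hHK hkap hn hs' hlt
  have hsup : h ≤ criticalCurve K μ lam :=
    le_csSup (localized_bddAbove μ K hexp lam hlam0) ⟨hh0, f, hf0, hf⟩
  rw [le_div_iff₀ hlam0]
  refine le_trans ?_ hsup
  rw [hh]
  refine mul_le_mul_of_nonneg_right ?_ hlam0.le
  have : (2 - ε) * α ^ 2 ≤ d * α ^ 2 := mul_le_mul_of_nonneg_right hdε (by positivity)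
  linarith

end Pool.Agent.H98.CE
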