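import Pool.Agent.H98.CE.Defs

/-!
# The exact constant of the gap of the copolymer critical curve: targets (helper98)

Every `T_X` is a proposition to be proved in a module of its own. See `Defs.lean`.
-/

set_option autoImplicit false

open MeasureTheory ProbabilityTheory Filter Topology
open Pool.Agent.H95 Pool.Agent.H95.Cop
open Pool.Agent.H55.CG (pz VV Mo)

namespace Pool.Agent.H98.CE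

/-! ## A. Cells and boxes (deterministic) -/

/-- PCB: the pair functional of cells. -/
def T_PCB : Prop := ∀ (K : PMF ℕ) (ℓ : ℕ), 1 ≤ ℓ → 0 < VV K ℓ ∧ ∀ a b : ℕ,
  (∀ (x : ℕ → ℝ) (t : ℕ), 0 ≤ pc K ℓ x a b ∧
    pc K ℓ (shift (t * ℓ) x) a b = pc K ℓ x (a + t) (b + t) ∧ (b < a → pc K ℓ x a b = 0)) ∧
  Measurable (fun x : ℕ → ℝ => pc K ℓ x a b) ∧
  DepLt ((b + 1) * ℓ) (fun x : ℕ → ℝ => pc K ℓ x a b)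

/-- PXS: the functional of intervals of cells. -/
def T_PXS : Prop := ∀ (K : PMF ℕ) (ℓ : ℕ), 1 ≤ ℓ → ∀ a b c d : ℕ,
  (∀ x : ℕ → ℝ, 0 ≤ PX K ℓ x a b c d ∧
    (∀ t, PX K ℓ (shift (t * ℓ) x) a b c d = PX K ℓ x (a + t) (b + t) (c + t) (d + t)) ∧
    (∀ a' b' c' d', a' ≤ a → b ≤ b' → c' ≤ c → d ≤ d' →
      PX K ℓ x a b c d ≤ PX K ℓ x a' b' c' d') ∧
    (∀ n t, WB K ℓ n (shift (t * ℓ) x) = PX K ℓ x t (t + n) t (t + n))) ∧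
  Measurable (fun x : ℕ → ℝ => PX K ℓ x a b c d) ∧
  DepLt (d * ℓ) (fun x : ℕ → ℝ => PX K ℓ x a b c d)

/-- CMP: composition over a jump between the cells before `L` and the cells from `L` on. -/
def T_CMP : Prop := ∀ (K : PMF ℕ) (ℓ : ℕ) (α κ : ℝ), 1 ≤ ℓ → 0 < α → 0 ≤ κ → HK K ℓ α κ →
  ∀ (x : ℕ → ℝ) (a b L : ℕ), a < L → L ≤ b →
  ∑ u ∈ Finset.Ico a L, ∑ v ∈ Finset.Icc L b,
    (if u + 2 ≤ v then pc K ℓ x a u * lk α κ (v + 1 - u) * pc K ℓ x v b else 0) ≤ pc K ℓ x a b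

/-- PXC: composition of intervals of cells. -/
def T_PXC : Prop := ∀ (K : PMF ℕ) (ℓ : ℕ) (α κ : ℝ), 1 ≤ ℓ → 0 < α → 0 ≤ κ → HK K ℓ α κ →
  ∀ (x : ℕ → ℝ) (a b c d e f g h D : ℕ), b ≤ d → d + 1 ≤ e → d ≤ g → f ≤ c + D →
  PX K ℓ x a b c d * lk α κ D * PX K ℓ x e f g h ≤ PX K ℓ x a b g h

/-- STB: a long excursion below. -/
def T_STB : Prop := ∀ (K : PMF ℕ) (ℓ : ℕ) (α κ : ℝ), 1 ≤ ℓ → 0 < α → 0 ≤ κ → HK K ℓ α κ →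
  ∀ (x : ℕ → ℝ) (a b : ℕ), a + 2 ≤ b → lk α κ (b + 1 - a) * st K ℓ x a b ≤ pc K ℓ x a b

/-- AAB: all stretches between two windows. -/
def T_AAB : Prop := ∀ (K : PMF ℕ) (ℓ : ℕ) (α κ : ℝ), 1 ≤ ℓ → 0 < α → 0 ≤ κ → HK K ℓ α κ →
  ∀ (x : ℕ → ℝ) (aY aV np S T : ℕ), 1 ≤ aY → S < T → T < np →
  0 ≤ AA K ℓ α κ aY aV S T x ∧ AA K ℓ α κ aY aV S T x ≤ WB K ℓ (np * (aY + aV)) x

/-- AAM: measurability and dependence. -/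
def T_AAM : Prop := ∀ (K : PMF ℕ) (ℓ : ℕ) (α κ : ℝ) (aY aV np S T : ℕ),
  Measurable (fun x : ℕ → ℝ => AA K ℓ α κ aY aV S T x) ∧
  MeasurableSet {x : ℕ → ℝ | sg ℓ aY aV np S T x} ∧
  (S < T → T < np → DepLt (np * (aY + aV) * ℓ) (fun x : ℕ → ℝ => AA K ℓ α κ aY aV S T x)) ∧
  DepLt (np * (aY + aV) * ℓ) (fun x : ℕ → ℝ => sg ℓ aY aV np S T x)

/-! ## B. Dressing (deterministic) -/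

/-- DRA: excursions above before a block. -/
def T_DRA : Prop := ∀ (K : PMF ℕ) (ℓ : ℕ) (α κ : ℝ), 1 ≤ ℓ → 0 < α → 0 ≤ κ → HK K ℓ α κ →
  ∀ (n glo ghi : ℕ), 2 ≤ glo → ∀ (x : ℕ → ℝ) (k t n' g h : ℕ), k * ghi ≤ t → n' ≤ n → t ≤ g →
  fw K ℓ α κ n glo ghi x k t * PX K ℓ x t (t + n') g h ≤ PX K ℓ x (t - k * ghi) (t + n') g h

/-- DRB: excursions above after a block. -/
def T_DRB : Prop := ∀ (K : PMF ℕ) (ℓ : ℕ) (α κ : ℝ), 1 ≤ ℓ → 0 < α → 0 ≤ κ → HK K ℓ α κ →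
  ∀ (n glo ghi : ℕ), 2 ≤ glo → ∀ (x : ℕ → ℝ) (k t n' a b : ℕ), 1 ≤ n' → n' ≤ n → b ≤ t + n' →
  PX K ℓ x a b t (t + n') * sf K ℓ α κ n glo ghi k (shift ((t + n') * ℓ) x) ≤
    PX K ℓ x a b t (t + n' + k * (ghi + 1))

/-- DRE: both sides. -/
def T_DRE : Prop := ∀ (K : PMF ℕ) (ℓ : ℕ) (α κ : ℝ), 1 ≤ ℓ → 0 < α → 0 ≤ κ → HK K ℓ α κ →
  ∀ (n glo ghi : ℕ), 1 ≤ n → 2 ≤ glo → ∀ (x : ℕ → ℝ) (k t N : ℕ), k * ghi ≤ t →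
  t + n + k * (ghi + 1) ≤ N → ∀ v : ℝ, 0 ≤ v → v ≤ WB K ℓ n (shift (t * ℓ) x) →
  fw K ℓ α κ n glo ghi x k t * v * sf K ℓ α κ n glo ghi k (shift ((t + n) * ℓ) x) ≤ WB K ℓ N x

/-- FWB: the functional `fw`. -/
def T_FWB : Prop := ∀ (K : PMF ℕ) (ν : Measure ℝ) [IsProbabilityMeasure ν] (ℓ : ℕ) (α κ : ℝ)
  (n glo ghi : ℕ), 1 ≤ ℓ → 0 < α → 0 ≤ κ → 2 ≤ glo →
  ∑ s ∈ Finset.Ico glo ghi, lk α κ (s + n + 1) ≤ 1 / 2 → ∀ k t : ℕ,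
  Measurable (fun x : ℕ → ℝ => fw K ℓ α κ n glo ghi x k t) ∧
  (∀ x : ℕ → ℝ, 1 ≤ fw K ℓ α κ n glo ghi x k t ∧ fw K ℓ α κ n glo ghi x k t ≤ 2) ∧
  (k * ghi ≤ t → DepLt (t * ℓ) (fun x : ℕ → ℝ => fw K ℓ α κ n glo ghi x k t) ∧
    ∫ x : ℕ → ℝ, fw K ℓ α κ n glo ghi x k t ∂(iid ν) = ∑ i ∈ Finset.range (k + 1),
      ((∑ s ∈ Finset.Ico glo ghi, lk α κ (s + n + 1)) * ∫ x : ℕ → ℝ, qq K ℓ x 0 ∂(iid ν)) ^ i)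

/-- SFB: the functional `sf`. -/
def T_SFB : Prop := ∀ (K : PMF ℕ) (ν : Measure ℝ) [IsProbabilityMeasure ν] (ℓ : ℕ) (α κ : ℝ)
  (n glo ghi : ℕ), 1 ≤ ℓ → 0 < α → 0 ≤ κ → 2 ≤ glo →
  ∑ s ∈ Finset.Ico glo ghi, lk α κ (s + n + 1) ≤ 1 / 2 → ∀ k : ℕ,
  Measurable (fun x : ℕ → ℝ => sf K ℓ α κ n glo ghi k x) ∧
  (∀ x : ℕ → ℝ, 1 ≤ sf K ℓ α κ n glo ghi k x ∧ sf K ℓ α κ n glo ghi k x ≤ 2) ∧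
  DepLt (k * (ghi + 1) * ℓ) (fun x : ℕ → ℝ => sf K ℓ α κ n glo ghi k x) ∧
  ∫ x : ℕ → ℝ, sf K ℓ α κ n glo ghi k x ∂(iid ν) = ∑ i ∈ Finset.range (k + 1),
    ((∑ s ∈ Finset.Ico glo ghi, lk α κ (s + n + 1)) * ∫ x : ℕ → ℝ, qq K ℓ x 0 ∂(iid ν)) ^ i

/-- SLM: the functional of a single cell is nearly one. -/
def T_SLM : Prop := ∀ (K : PMF ℕ) (ν : Measure ℝ) [IsProbabilityMeasure ν],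
  (∀ t : ℝ, Integrable (fun z => Real.exp (t * z)) ν) → ∀ (ℓ : ℕ) (ϑ : ℝ), 1 ≤ ℓ → 0 < ϑ →
  ϑ ≤ 1 / 2 → Mo ν (1 / 2) ≤ 1 → Mo ν (-1 / 2) ^ ℓ ≤ Real.exp (2 * ϑ) →
  1 - 2 * Real.sqrt ϑ ≤ ∫ x : ℕ → ℝ, qq K ℓ x 0 ∂(iid ν) ∧ ∫ x : ℕ → ℝ, qq K ℓ x 0 ∂(iid ν) ≤ 1

/-- DS1: the dressed functional, deterministic properties. -/
def T_DS1 : Prop := ∀ (K : PMF ℕ) (ν : Measure ℝ) [IsProbabilityMeasure ν] (ℓ : ℕ)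
  (α β κ : ℝ) (n J : ℕ) (t : ℕ → ℝ) (C E : ℝ) (w : (ℕ → ℝ) → ℝ) (lab : (ℕ → ℝ) → ℕ),
  1 ≤ ℓ → 0 < α → 0 ≤ κ → HK K ℓ α κ → 1 ≤ n → Ob K ν ℓ α β n J t C E w lab →
  ∀ (glo ghi k M lo hi : ℕ), 2 ≤ glo → ∑ s ∈ Finset.Ico glo ghi, lk α κ (s + n + 1) ≤ 1 / 2 →
  k * ghi ≤ lo * n → hi * n + k * (ghi + 1) ≤ M * n →
  Measurable (dw K ℓ α κ n glo ghi k M lo hi w lab) ∧ Measurable (dl n ℓ M lo hi lab) ∧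
  DepLt (M * n * ℓ) (dw K ℓ α κ n glo ghi k M lo hi w lab) ∧
  DepLt (M * n * ℓ) (dl n ℓ M lo hi lab) ∧
  ∀ x : ℕ → ℝ, 0 ≤ dw K ℓ α κ n glo ghi k M lo hi w lab x ∧
    dw K ℓ α κ n glo ghi k M lo hi w lab x ≤ WB K ℓ (M * n) x ∧
    (dl n ℓ M lo hi lab x = 0 → dw K ℓ α κ n glo ghi k M lo hi w lab x = 0) ∧
    (dl n ℓ M lo hi lab x ≠ 0 →
      Real.exp (β * dl n ℓ M lo hi lab x) ≤ dw K ℓ α κ n glo ghi k M lo hi w lab x) ∧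
    dl n ℓ M lo hi lab x ≤ J

/-- DS2: the densities of the dressed functional. -/
def T_DS2 : Prop := ∀ (K : PMF ℕ) (ν : Measure ℝ) [IsProbabilityMeasure ν] (ℓ : ℕ)
  (α β κ : ℝ) (n J : ℕ) (t : ℕ → ℝ) (C E : ℝ) (w : (ℕ → ℝ) → ℝ) (lab : (ℕ → ℝ) → ℕ),
  1 ≤ ℓ → 0 < α → 0 ≤ κ → 1 ≤ n → Ob K ν ℓ α β n J t C E w lab → (∀ j, 0 ≤ t j) →
  ∀ (glo ghi k M lo hi : ℕ), 2 ≤ glo → ∑ s ∈ Finset.Ico glo ghi, lk α κ (s + n + 1) ≤ 1 / 2 →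
  k * ghi ≤ lo * n → hi * n + k * (ghi + 1) ≤ M * n → lo ≤ hi → ∀ (p q e : ℝ),
  (iid ν).real {x : ℕ → ℝ | 1 ≤ lab x} ≤ p → 0 ≤ q →
  q ≤ (2 : ℝ) ^ (1 / (1 + α) - 1) * (∑ i ∈ Finset.range (k + 1),
    ((∑ s ∈ Finset.Ico glo ghi, lk α κ (s + n + 1)) * ∫ x : ℕ → ℝ, qq K ℓ x 0 ∂(iid ν)) ^ i -
      2 * (M * p)) → 0 ≤ e → e * M ≤ (hi - lo : ℝ) * q ^ 2 → ∀ j, 1 ≤ j →
  ((M * n : ℕ) : ℝ) * (e * t j) ≤ ∫ x : ℕ → ℝ, (if dl n ℓ M lo hi lab x = j then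
    dw K ℓ α κ n glo ghi k M lo hi w lab x ^ (1 / (1 + α)) else 0) ∂(iid ν)

/-- DS3: the moments of the dressed functional. -/
def T_DS3 : Prop := ∀ (K : PMF ℕ) (ν : Measure ℝ) [IsProbabilityMeasure ν] (ℓ : ℕ)
  (α β κ : ℝ) (n J : ℕ) (t : ℕ → ℝ) (C E : ℝ) (w : (ℕ → ℝ) → ℝ) (lab : (ℕ → ℝ) → ℕ),
  1 ≤ ℓ → 0 < α → 0 ≤ κ → 1 ≤ n → Ob K ν ℓ α β n J t C E w lab →
  ∀ (glo ghi k M lo hi : ℕ), 2 ≤ glo → ∑ s ∈ Finset.Ico glo ghi, lk α κ (s + n + 1) ≤ 1 / 2 →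
  k * ghi ≤ lo * n → hi * n + k * (ghi + 1) ≤ M * n →
  Integrable (fun x => dw K ℓ α κ n glo ghi k M lo hi w lab x ^ (1 / (1 + α))) (iid ν) ∧
  Integrable (fun x => dw K ℓ α κ n glo ghi k M lo hi w lab x ^ (2 / (1 + α))) (iid ν) ∧
  ∫ x, dw K ℓ α κ n glo ghi k M lo hi w lab x ^ (1 / (1 + α)) ∂(iid ν) ≤
    ((M * n : ℕ) : ℝ) * (4 * C) ∧
  ∫ x, dw K ℓ α κ n glo ghi k M lo hi w lab x ^ (2 / (1 + α)) ∂(iid ν) ≤ 16 * M * E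

/-- OMN: monotonicity. -/
def T_OMN : Prop := ∀ (K : PMF ℕ) (ν : Measure ℝ) (ℓ : ℕ) (α β : ℝ) (n J J' : ℕ)
  (t t' : ℕ → ℝ) (C C' E E' : ℝ), OBJ K ν ℓ α β n J t C E → J ≤ J' → (∀ j, 1 ≤ j → t' j ≤ t j) →
  C ≤ C' → E ≤ E' → OBJ K ν ℓ α β n J' t' C' E'

/-- PHI: high boxes are rare. -/
def T_PHI : Prop := ∀ (K : PMF ℕ) (ν : Measure ℝ) [IsProbabilityMeasure ν] (ℓ : ℕ)
  (α β : ℝ) (n J : ℕ) (t : ℕ → ℝ) (C E : ℝ) (w : (ℕ → ℝ) → ℝ) (lab : (ℕ → ℝ) → ℕ),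
  0 < α → 0 ≤ β → Ob K ν ℓ α β n J t C E w lab → ∀ thr : ℕ, 1 ≤ thr →
  (iid ν).real {x : ℕ → ℝ | thr ≤ lab x} ≤ n * C * Real.exp (-(β * thr / (1 + α)))

/-- DRS: dressing. -/
def T_DRS : Prop := ∀ (K : PMF ℕ) (ν : Measure ℝ) [IsProbabilityMeasure ν] (ℓ : ℕ)
  (α β κ : ℝ) (n J : ℕ) (t : ℕ → ℝ) (C E : ℝ),
  1 ≤ ℓ → 0 < α → 0 ≤ β → 0 ≤ κ → HK K ℓ α κ → 1 ≤ n → OBJ K ν ℓ α β n J t C E →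
  (∀ j, 0 ≤ t j) → ∀ (glo ghi k M lo hi : ℕ), 2 ≤ glo →
  ∑ s ∈ Finset.Ico glo ghi, lk α κ (s + n + 1) ≤ 1 / 2 →
  k * ghi ≤ lo * n → hi * n + k * (ghi + 1) ≤ M * n → lo ≤ hi → ∀ (q e : ℝ), 0 ≤ q →
  q ≤ (2 : ℝ) ^ (1 / (1 + α) - 1) * (∑ i ∈ Finset.range (k + 1),
    ((∑ s ∈ Finset.Ico glo ghi, lk α κ (s + n + 1)) * ∫ x : ℕ → ℝ, qq K ℓ x 0 ∂(iid ν)) ^ i -
      2 * (M * (n * C * Real.exp (-(β / (1 + α)))))) → 0 ≤ e →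
  e * M ≤ (hi - lo : ℝ) * q ^ 2 →
  OBJ K ν ℓ α β (M * n) J (fun j => e * t j) (4 * C) (16 * M * E)

/-! ## C. Chains of high boxes -/

/-- GLF: the lists. -/
def T_GLF : Prop := ∀ (G m i : ℕ), (gl G m i).card = G ^ m ∧ ∀ L ∈ gl G m i,
  L.Pairwise (· < ·) ∧ L.length = m + 1 ∧ L.head? = some i ∧ L.toFinset.card = m + 1 ∧
  ∀ k ∈ L, i ≤ k ∧ k ≤ i + m * (G + 1)

/-- GLU: the union of the sets of lists is disjoint. -/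
def T_GLU : Prop := ∀ (G A ms : ℕ) (f : List ℕ → ℝ),
  (∀ L : List ℕ, L ∈ GLs G A ms ↔ ∃ i < A, ∃ m < ms, L ∈ gl G m i) ∧
  ∑ L ∈ GLs G A ms, f L = ∑ i ∈ Finset.range A, ∑ m ∈ Finset.range ms, ∑ L ∈ gl G m i, f L

/-- HLP: the list of the high boxes, and products over lists. -/
def T_HLP : Prop := ∀ (G m i : ℕ), ∀ L ∈ gl G m i,
  (∀ (n ℓ thr M : ℕ) (lab : (ℕ → ℝ) → ℕ) (x : ℕ → ℝ), i + m * (G + 1) < M →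
    (hb n ℓ thr M lab x = L ↔ ∀ k < M, (k ∈ L.toFinset ↔ thr ≤ lab (shift (k * (n * ℓ)) x)))) ∧
  (∀ f r : ℕ → ℝ, cw f r L = lp r L * ∏ k ∈ L.toFinset, f k) ∧
  (∀ g : ℕ → ℕ, (L.map g).sum = ∑ k ∈ L.toFinset, g k) ∧
  (∀ r : ℕ → ℝ, (∀ d, 0 ≤ r d) → 0 ≤ lp r L ∧ ((∀ d, r d ≤ 1) → lp r L ≤ 1))

/-- CNT: the sum of the weights of the lists. -/
def T_CNT : Prop := ∀ (α κ : ℝ) (n G m i : ℕ), 0 < α → 0 < κ → 1 ≤ n →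
  ∑ L ∈ gl G m i, lp (fun g => lk α κ (g * n)) L ^ (1 / (1 + α)) =
    (κ ^ (1 / (1 + α)) / n * ∑ g ∈ Finset.Ico 2 (G + 2), 1 / ((g : ℝ) + 1)) ^ m

/-- CHN: chains are below the functional of the box. -/
def T_CHN : Prop := ∀ (K : PMF ℕ) (ℓ : ℕ) (α κ : ℝ), 1 ≤ ℓ → 0 < α → 0 ≤ κ → HK K ℓ α κ →
  ∀ (n M G m i : ℕ) (L : List ℕ), 1 ≤ n → L ∈ gl G m i → i + m * (G + 1) < M →
  ∀ (x f : ℕ → ℝ), (∀ k, 0 ≤ f k ∧ f k ≤ WB K ℓ n (shift (k * (n * ℓ)) x)) →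
  0 ≤ cw f (fun g => lk α κ (g * n)) L ∧ cw f (fun g => lk α κ (g * n)) L ≤ WB K ℓ (M * n) x

/-- CLO: lower bound of a chain by its label. -/
def T_CLO : Prop := ∀ (G m i : ℕ), ∀ L ∈ gl G m i, ∀ (f r : ℕ → ℝ) (g : ℕ → ℕ) (β : ℝ)
  (thr : ℕ), 1 ≤ thr → 0 ≤ β → (∀ k ∈ L, thr ≤ g k ∧ Real.exp (β * g k) ≤ f k) →
  (∀ d, 3 ≤ d → d ≤ G + 2 → Real.exp (-(β * ((thr : ℝ) - 1))) ≤ r d) →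
  (L.length - 1) * (thr - 1) + thr ≤ (L.map g).sum ∧
  Real.exp (β * (((L.map g).sum - (L.length - 1) * (thr - 1) : ℕ) : ℝ)) ≤ cw f r L

open Classical in
/-- LIT: independence, without labels. -/
def T_LIT : Prop := ∀ (ν : Measure ℝ) [IsProbabilityMeasure ν] (s thr : ℕ)
  (lab : (ℕ → ℝ) → ℕ) (f : (ℕ → ℝ) → ℝ), Measurable lab → DepLt s lab → Measurable f →
  DepLt s f → (∀ x, 0 ≤ f x) → Integrable f (iid ν) →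
  ∀ (N : ℕ) (S : Finset ℕ), S ⊆ Finset.range N →
  Integrable (fun x : ℕ → ℝ => if ∀ k < N, (k ∈ S ↔ thr ≤ lab (shift (k * s) x)) then
    ∏ k ∈ S, f (shift (k * s) x) else 0) (iid ν) ∧
  ∫ x : ℕ → ℝ, (if ∀ k < N, (k ∈ S ↔ thr ≤ lab (shift (k * s) x)) then
    ∏ k ∈ S, f (shift (k * s) x) else 0) ∂(iid ν) =
    (∫ x : ℕ → ℝ, (if thr ≤ lab x then f x else 0) ∂(iid ν)) ^ S.card *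
      (iid ν).real {x : ℕ → ℝ | lab x < thr} ^ (N - S.card)

open Classical in
/-- LIS: independence, with the sum of the labels. -/
def T_LIS : Prop := ∀ (ν : Measure ℝ) [IsProbabilityMeasure ν] (s thr : ℕ)
  (lab : (ℕ → ℝ) → ℕ) (f : (ℕ → ℝ) → ℝ), Measurable lab → DepLt s lab → Measurable f →
  DepLt s f → (∀ x, 0 ≤ f x) → Integrable f (iid ν) →
  ∀ (N : ℕ) (S : Finset ℕ), S ⊆ Finset.range N → ∀ v : ℕ,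
  ∫ x : ℕ → ℝ, (if (∀ k < N, (k ∈ S ↔ thr ≤ lab (shift (k * s) x))) ∧
      ∑ k ∈ S, lab (shift (k * s) x) = v then ∏ k ∈ S, f (shift (k * s) x) else 0) ∂(iid ν) =
    cv (fun j => ∫ x : ℕ → ℝ, (if lab x = j then f x else 0) ∂(iid ν)) thr S.card v *
      (iid ν).real {x : ℕ → ℝ | lab x < thr} ^ (N - S.card)

/-- CVM: the sums `cv`. -/
def T_CVM : Prop := ∀ (t t' : ℕ → ℝ) (thr m s : ℕ), (∀ j, 0 ≤ t j) →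
  0 ≤ cv t thr m s ∧ (∀ c : ℝ, cv (fun j => c * t j) thr m s = c ^ m * cv t thr m s) ∧
  ((∀ j, thr ≤ j → t j ≤ t' j) → cv t thr m s ≤ cv t' thr m s)

/-- ST1: the functional of the next level, deterministic properties. -/
def T_ST1 : Prop := ∀ (K : PMF ℕ) (ν : Measure ℝ) [IsProbabilityMeasure ν] (ℓ : ℕ)
  (α β κ : ℝ) (n J : ℕ) (t : ℕ → ℝ) (C E : ℝ) (w : (ℕ → ℝ) → ℝ) (lab : (ℕ → ℝ) → ℕ),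
  1 ≤ ℓ → 0 < α → 0 ≤ β → 0 ≤ κ → HK K ℓ α κ → 1 ≤ n → Ob K ν ℓ α β n J t C E w lab →
  ∀ (thr M G A ms : ℕ), 1 ≤ thr → 1 ≤ ms → A + (ms - 1) * (G + 1) ≤ M →
  Real.exp (-(β * ((thr : ℝ) - 1))) ≤ lk α κ ((G + 2) * n) →
  Measurable (nw α κ n ℓ thr M G A ms w lab) ∧ Measurable (nl n ℓ thr M G A ms lab) ∧
  DepLt (M * n * ℓ) (nw α κ n ℓ thr M G A ms w lab) ∧
  DepLt (M * n * ℓ) (nl n ℓ thr M G A ms lab) ∧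
  ∀ x : ℕ → ℝ, 0 ≤ nw α κ n ℓ thr M G A ms w lab x ∧
    nw α κ n ℓ thr M G A ms w lab x ≤ WB K ℓ (M * n) x ∧
    (nl n ℓ thr M G A ms lab x = 0 → nw α κ n ℓ thr M G A ms w lab x = 0) ∧
    (nl n ℓ thr M G A ms lab x ≠ 0 →
      Real.exp (β * nl n ℓ thr M G A ms lab x) ≤ nw α κ n ℓ thr M G A ms w lab x) ∧
    nl n ℓ thr M G A ms lab x ≤ ms * J

/-- ST2: the densities of the next level. -/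
def T_ST2 : Prop := ∀ (K : PMF ℕ) (ν : Measure ℝ) [IsProbabilityMeasure ν] (ℓ : ℕ)
  (α β κ : ℝ) (n J : ℕ) (t : ℕ → ℝ) (C E : ℝ) (w : (ℕ → ℝ) → ℝ) (lab : (ℕ → ℝ) → ℕ),
  1 ≤ ℓ → 0 < α → 0 ≤ β → 0 < κ → 1 ≤ n → Ob K ν ℓ α β n J t C E w lab → (∀ j, 0 ≤ t j) →
  ∀ (thr M G A ms : ℕ), 1 ≤ thr → 1 ≤ ms → A + (ms - 1) * (G + 1) ≤ M → ∀ (ω e p : ℝ),
  0 ≤ ω → ω ≤ κ ^ (1 / (1 + α)) * ∑ g ∈ Finset.Ico 2 (G + 2), 1 / ((g : ℝ) + 1) →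
  (iid ν).real {x : ℕ → ℝ | thr ≤ lab x} ≤ p → 0 ≤ e → M * p ≤ 1 → e * M ≤ A * (1 - M * p) →
  ∀ j, 1 ≤ j → ((M * n : ℕ) : ℝ) * nx t thr ms ω e j ≤
    ∫ x : ℕ → ℝ, (if nl n ℓ thr M G A ms lab x = j then
      nw α κ n ℓ thr M G A ms w lab x ^ (1 / (1 + α)) else 0) ∂(iid ν)

/-- ST3: the moments of the next level. -/
def T_ST3 : Prop := ∀ (K : PMF ℕ) (ν : Measure ℝ) [IsProbabilityMeasure ν] (ℓ : ℕ)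
  (α β κ : ℝ) (n J : ℕ) (t : ℕ → ℝ) (C E : ℝ) (w : (ℕ → ℝ) → ℝ) (lab : (ℕ → ℝ) → ℕ),
  1 ≤ ℓ → 0 < α → 0 < κ → κ ≤ 1 → 1 ≤ n → 1 ≤ C → 1 ≤ E → Ob K ν ℓ α β n J t C E w lab →
  ∀ (thr M G A ms : ℕ), 1 ≤ thr → 1 ≤ ms → 1 ≤ G → A + (ms - 1) * (G + 1) ≤ M → ∀ R : ℝ,
  1 ≤ R → κ ^ (1 / (1 + α)) * ∑ g ∈ Finset.Ico 2 (G + 2), 1 / ((g : ℝ) + 1) ≤ R →
  Integrable (fun x => nw α κ n ℓ thr M G A ms w lab x ^ (1 / (1 + α))) (iid ν) ∧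
  Integrable (fun x => nw α κ n ℓ thr M G A ms w lab x ^ (2 / (1 + α))) (iid ν) ∧
  ∫ x, nw α κ n ℓ thr M G A ms w lab x ^ (1 / (1 + α)) ∂(iid ν) ≤
    ((M * n : ℕ) : ℝ) * (ms * (C * R) ^ ms) ∧
  ∫ x, nw α κ n ℓ thr M G A ms w lab x ^ (2 / (1 + α)) ∂(iid ν) ≤
    ms * (M : ℝ) ^ (ms + 1) * E ^ ms

/-- STP: one step. -/
def T_STP : Prop := ∀ (K : PMF ℕ) (ν : Measure ℝ) [IsProbabilityMeasure ν] (ℓ : ℕ)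
  (α β κ : ℝ) (n J : ℕ) (t : ℕ → ℝ) (C E : ℝ), 1 ≤ ℓ → 0 < α → 0 ≤ β → 0 < κ → κ ≤ 1 →
  HK K ℓ α κ → 1 ≤ n → 1 ≤ C → 1 ≤ E → OBJ K ν ℓ α β n J t C E → (∀ j, 0 ≤ t j) →
  ∀ (thr M G A ms : ℕ), 1 ≤ thr → 1 ≤ ms → 1 ≤ G → A + (ms - 1) * (G + 1) ≤ M →
  Real.exp (-(β * ((thr : ℝ) - 1))) ≤ lk α κ ((G + 2) * n) → ∀ (ω e p R : ℝ), 0 ≤ ω →
  ω ≤ κ ^ (1 / (1 + α)) * ∑ g ∈ Finset.Ico 2 (G + 2), 1 / ((g : ℝ) + 1) →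
  M * (n * C * Real.exp (-(β * thr / (1 + α)))) ≤ p → 0 ≤ e → p ≤ 1 → e * M ≤ A * (1 - p) →
  1 ≤ R → κ ^ (1 / (1 + α)) * ∑ g ∈ Finset.Ico 2 (G + 2), 1 / ((g : ℝ) + 1) ≤ R →
  OBJ K ν ℓ α β (M * n) (ms * J) (nx t thr ms ω e) (ms * (C * R) ^ ms)
    (ms * (M : ℝ) ^ (ms + 1) * E ^ ms)

/-- CHF: the final chain. -/
def T_CHF : Prop := ∀ (K : PMF ℕ) (ν : Measure ℝ) [IsProbabilityMeasure ν] (ℓ : ℕ)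
  (α β κ : ℝ) (n J : ℕ) (t : ℕ → ℝ) (C E : ℝ), 1 ≤ ℓ → 0 < α → 0 ≤ β → 0 < κ → κ ≤ 1 →
  HK K ℓ α κ → 1 ≤ n → 1 ≤ E → OBJ K ν ℓ α β n J t C E → (∀ j, 0 ≤ t j) →
  ∀ (thr M G A r : ℕ), 1 ≤ thr → 1 ≤ G → A + r * (G + 1) ≤ M →
  M * (n * C * Real.exp (-(β * thr / (1 + α)))) ≤ 1 / 2 → ∀ (ω E0 : ℝ) (J' : ℕ), 0 ≤ ω →
  ω ≤ κ ^ (1 / (1 + α)) * ∑ g ∈ Finset.Ico 2 (G + 2), 1 / ((g : ℝ) + 1) →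
  E0 = A * n * (∑ j ∈ Finset.Icc thr J, t j) * (ω * ∑ j ∈ Finset.Icc thr J, t j) ^ r / 2 →
  0 < E0 → 1 ≤ J' → 16 * (A * (G : ℝ) ^ r * E ^ (r + 1)) ≤ 2 ^ J' * E0 ^ 2 →
  ∃ s : ℝ, 0 < s ∧ E0 / (4 * J') ≤
    s * (iid ν).real {x : ℕ → ℝ | s ≤ WB K ℓ (M * n) x ^ (1 / (1 + α))}

/-- END: the rare stretch lemma. -/
def T_END : Prop := ∀ (α : ℝ), 0 < α → ∀ (K : PMF ℕ), K 0 = 0 → ∀ cK : ℝ, 0 < cK →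
  Tendsto (fun n : ℕ => (K n).toReal * (n : ℝ) ^ (1 + α)) atTop (𝓝 cK) →
  ∀ (μ : Measure ℝ) [IsProbabilityMeasure μ],
  (∀ t : ℝ, Integrable (fun z => Real.exp (t * z)) μ) → ∀ (c : ℝ) (n0 : ℕ), 0 < c →
  (∀ n : ℕ, n0 ≤ n → c * (n : ℝ) ^ (-(1 + α)) ≤ kk K n) → ∀ (ℓ n : ℕ) (κ lam h s : ℝ),
  1 ≤ ℓ → n0 ≤ ℓ → 0 < κ → κ ≤ 1 → HK K ℓ α κ → κ ≤ VV K ℓ * (c / 2) * (ℓ : ℝ) ^ (-(1 + α)) →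
  1 ≤ n → 0 < s → 4 * n / κ < s *
    (iid (μ.map (fun z => -2 * lam * (z + h)))).real
      {x : ℕ → ℝ | s ≤ WB K ℓ n x ^ (1 / (1 + α))} →
  ∃ f : ℝ, 0 < f ∧ HasFreeEnergy K μ lam h f

/-! ## D. The first blocks -/

/-- TL1: exponential moments of one term, with an additional tilt on `u, ..., v - 1`. -/
def T_TL1 : Prop := ∀ (ν : Measure ℝ) [IsProbabilityMeasure ν],
  (∀ t : ℝ, Integrable (fun z => Real.exp (t * z)) ν) → ∀ (p θ : ℝ) (y y' z z' u v : ℕ),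
  y ≤ y' → y' ≤ z → z ≤ z' → u ≤ v →
  (v ≤ y ∨ z' ≤ u →
    Integrable (fun x : ℕ → ℝ => Real.exp (p * ey x y y' z z' + θ * H x u v)) (iid ν) ∧
    ∫ x : ℕ → ℝ, Real.exp (p * ey x y y' z z' + θ * H x u v) ∂(iid ν) =
      Mo ν (p / 2) ^ ((y' - y) + (z' - z)) * Mo ν p ^ (z - y') * Mo ν θ ^ (v - u)) ∧
  (y' ≤ u → v ≤ z →
    Integrable (fun x : ℕ → ℝ => Real.exp (p * ey x y y' z z' + θ * H x u v)) (iid ν) ∧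
    ∫ x : ℕ → ℝ, Real.exp (p * ey x y y' z z' + θ * H x u v) ∂(iid ν) =
      Mo ν (p / 2) ^ ((y' - y) + (z' - z)) * Mo ν p ^ (z - y' - (v - u)) *
        Mo ν (p + θ) ^ (v - u))

open Classical in
/-- TL2: one term on the event `sg`. -/
def T_TL2 : Prop := ∀ (ν : Measure ℝ) [IsProbabilityMeasure ν],
  (∀ t : ℝ, Integrable (fun z => Real.exp (t * z)) ν) → ∀ (γ y0 : ℝ)
  (ℓ aY aV np S T a b : ℕ), 0 < γ → 0 ≤ y0 → 1 ≤ ℓ → 1 ≤ aY → S < T → T < np →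
  S * (aY + aV) + aY ≤ a → a < (S + 1) * (aY + aV) → T * (aY + aV) + aY ≤ b →
  b < (T + 1) * (aY + aV) → Mo ν γ ≤ 1 → Mo ν (γ / 2) ≤ 1 →
  (Mo ν (γ / 2) ^ ℓ) ^ aY ≤ y0 * (Mo ν γ ^ ℓ) ^ aY → ∀ y y' z z' : ℕ,
  a * ℓ ≤ y → y ≤ y' → y' < (a + 1) * ℓ → b * ℓ ≤ z → z ≤ z' → z' < (b + 1) * ℓ →
  (Mo ν (γ / 2) ^ ℓ) ^ 2 * (Mo ν γ ^ ℓ) ^ ((T - S + 1) * (aY + aV)) * (1 - np * y0) ≤
    ∫ x : ℕ → ℝ, (if sg ℓ aY aV np S T x then Real.exp (γ * ey x y y' z z') else 0) ∂(iid ν)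

/-- AEX: expansion of `AA` (`i = (a, b, y, y', z, z')`). -/
def T_AEX : Prop := ∀ (K : PMF ℕ) (ℓ : ℕ) (α κ : ℝ) (aY aV S T : ℕ), 1 ≤ ℓ → 0 ≤ κ →
  ∃ (s : Finset (ℕ × ℕ × ℕ × ℕ × ℕ × ℕ)) (c : ℕ × ℕ × ℕ × ℕ × ℕ × ℕ → ℝ),
  (∀ a b y y' z z' : ℕ, (a, b, y, y', z, z') ∈ s →
    0 ≤ c (a, b, y, y', z, z') ∧ S * (aY + aV) + aY ≤ a ∧ a < (S + 1) * (aY + aV) ∧
    T * (aY + aV) + aY ≤ b ∧ b < (T + 1) * (aY + aV) ∧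
    a * ℓ ≤ y ∧ y ≤ y' ∧ y' < (a + 1) * ℓ ∧ b * ℓ ≤ z ∧ z ≤ z' ∧ z' < (b + 1) * ℓ) ∧
  ∑ i ∈ s, c i = ∑ a ∈ Finset.Ico (S * (aY + aV) + aY) ((S + 1) * (aY + aV)),
    ∑ b ∈ Finset.Ico (T * (aY + aV) + aY) ((T + 1) * (aY + aV)), lk α κ (b + 1 - a) ∧
  (S < T → 1 ≤ aY → ∀ x : ℕ → ℝ, AA K ℓ α κ aY aV S T x =
    ∑ i ∈ s, c i * Real.exp (ey x i.2.2.1 i.2.2.2.1 i.2.2.2.2.1 i.2.2.2.2.2))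

open Classical in
/-- BL1: the moment of order `γ` on the event, from below. -/
def T_BL1 : Prop := ∀ (K : PMF ℕ) (ν : Measure ℝ) [IsProbabilityMeasure ν],
  (∀ t : ℝ, Integrable (fun z => Real.exp (t * z)) ν) → ∀ (ℓ : ℕ) (α κ : ℝ)
  (aY aV np S T : ℕ) (m : ℝ), 1 ≤ ℓ → 0 < α → 0 < κ → 1 ≤ aY → 1 ≤ aV → S < T → T < np →
  0 ≤ m → (∀ a b y y' z z' : ℕ, S * (aY + aV) + aY ≤ a → a < (S + 1) * (aY + aV) →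
    T * (aY + aV) + aY ≤ b → b < (T + 1) * (aY + aV) → a * ℓ ≤ y → y ≤ y' → y' < (a + 1) * ℓ →
    b * ℓ ≤ z → z ≤ z' → z' < (b + 1) * ℓ → m ≤ ∫ x : ℕ → ℝ, (if sg ℓ aY aV np S T x then
      Real.exp (1 / (1 + α) * ey x y y' z z') else 0) ∂(iid ν)) →
  ((aV : ℝ) ^ 2) ^ (1 / (1 + α)) * κ ^ (1 / (1 + α)) / (((T - S + 1) * (aY + aV) : ℕ) : ℝ) * m ≤
    ∫ x : ℕ → ℝ, (if sg ℓ aY aV np S T x then AA K ℓ α κ aY aV S T x ^ (1 / (1 + α)) else 0)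
      ∂(iid ν)

/-- BL2: moments of order at most one, from above. -/
def T_BL2 : Prop := ∀ (K : PMF ℕ) (ν : Measure ℝ) [IsProbabilityMeasure ν],
  (∀ t : ℝ, Integrable (fun z => Real.exp (t * z)) ν) → ∀ (ℓ : ℕ) (α κ p B : ℝ)
  (aY aV S T : ℕ), 1 ≤ ℓ → 0 < α → 0 ≤ κ → κ ≤ 1 → 0 < p → p ≤ 1 → 1 ≤ aY → S < T →
  Mo ν p ≤ 1 → Mo ν (1 / 2) ≤ 1 → 2 + Mo ν 1 ^ ℓ ≤ B →
  Integrable (fun x : ℕ → ℝ => AA K ℓ α κ aY aV S T x ^ p) (iid ν) ∧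
  ∫ x : ℕ → ℝ, AA K ℓ α κ aY aV S T x ^ p ∂(iid ν) ≤
    (aV : ℝ) ^ 2 * B ^ 2 * (Mo ν p ^ ℓ) ^ ((T - S - 1) * (aY + aV))

/-- BL3: the moment of order `2 γ`, from above. -/
def T_BL3 : Prop := ∀ (K : PMF ℕ) (ν : Measure ℝ) [IsProbabilityMeasure ν],
  (∀ t : ℝ, Integrable (fun z => Real.exp (t * z)) ν) → ∀ (ℓ : ℕ) (α κ D : ℝ)
  (aY aV S T : ℕ), 1 ≤ ℓ → 0 < α → α < 1 → 0 < κ → κ ≤ 1 → 1 ≤ aY → 1 ≤ aV → S < T →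
  Mo ν (1 / (1 + α)) ≤ 1 → 1 ≤ D → Mo ν (2 / (1 + α)) ^ ℓ ≤ D →
  Integrable (fun x : ℕ → ℝ => AA K ℓ α κ aY aV S T x ^ (2 / (1 + α))) (iid ν) ∧
  ∫ x : ℕ → ℝ, AA K ℓ α κ aY aV S T x ^ (2 / (1 + α)) ∂(iid ν) ≤
    (aV : ℝ) ^ 4 * D ^ ((T + 1 - S) * (aY + aV))

/-- BK1: the functional of the first blocks, deterministic properties. -/
def T_BK1 : Prop := ∀ (K : PMF ℕ) (ℓ : ℕ) (α β κ : ℝ), 1 ≤ ℓ → 0 < α → 0 ≤ κ → HK K ℓ α κ →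
  ∀ (aY aV np J : ℕ) (jj : ℕ → ℕ), 1 ≤ aY →
  Measurable (w0 K ℓ α β κ aY aV np J jj) ∧ Measurable (l0 K ℓ α β κ aY aV np J jj) ∧
  DepLt (np * (aY + aV) * ℓ) (w0 K ℓ α β κ aY aV np J jj) ∧
  DepLt (np * (aY + aV) * ℓ) (l0 K ℓ α β κ aY aV np J jj) ∧
  ∀ x : ℕ → ℝ, 0 ≤ w0 K ℓ α β κ aY aV np J jj x ∧
    w0 K ℓ α β κ aY aV np J jj x ≤ WB K ℓ (np * (aY + aV)) x ∧
    (l0 K ℓ α β κ aY aV np J jj x = 0 → w0 K ℓ α β κ aY aV np J jj x = 0) ∧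
    (l0 K ℓ α β κ aY aV np J jj x ≠ 0 →
      Real.exp (β * l0 K ℓ α β κ aY aV np J jj x) ≤ w0 K ℓ α β κ aY aV np J jj x) ∧
    l0 K ℓ α β κ aY aV np J jj x ≤ J

open Classical in
/-- BK2: powers of the functional of the first blocks. -/
def T_BK2 : Prop := ∀ (K : PMF ℕ) (ℓ : ℕ) (α β κ : ℝ), 1 ≤ ℓ → 0 < α → 0 ≤ κ → HK K ℓ α κ →
  ∀ (aY aV np J : ℕ) (jj : ℕ → ℕ), 1 ≤ aY → ∀ (x : ℕ → ℝ) (p : ℝ), 0 < p →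
  (∀ j : ℕ, 1 ≤ j → (if l0 K ℓ α β κ aY aV np J jj x = j then
      w0 K ℓ α β κ aY aV np J jj x ^ p else 0) =
    ∑ i ∈ (II np J jj).filter (fun i => jj (i.2 - i.1) = j), if sg ℓ aY aV np i.1 i.2 x ∧
      Real.exp (β * j) ≤ AA K ℓ α κ aY aV i.1 i.2 x then
        AA K ℓ α κ aY aV i.1 i.2 x ^ p else 0) ∧
  w0 K ℓ α β κ aY aV np J jj x ^ p ≤ ∑ i ∈ II np J jj, AA K ℓ α κ aY aV i.1 i.2 x ^ p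

open Classical in
/-- BK3: the densities of the first blocks. -/
def T_BK3 : Prop := ∀ (K : PMF ℕ) (ν : Measure ℝ) [IsProbabilityMeasure ν],
  (∀ t : ℝ, Integrable (fun z => Real.exp (t * z)) ν) → ∀ (ℓ : ℕ) (α β κ s : ℝ),
  1 ≤ ℓ → 0 < α → 0 < κ → κ ≤ 1 → HK K ℓ α κ → 0 < s → s < 1 / (1 + α) → 0 ≤ β →
  Mo ν (1 / (1 + α)) ≤ 1 → Mo ν (1 / (1 + α) - s) ≤ 1 → Mo ν (1 / 2) ≤ 1 →
  ∀ (aY aV np J j : ℕ) (jj : ℕ → ℕ) (b : ℝ), 1 ≤ aY → 1 ≤ j →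
  (∀ i ∈ II np J jj, jj (i.2 - i.1) = j → b ≤
    (∫ x : ℕ → ℝ, (if sg ℓ aY aV np i.1 i.2 x then
        AA K ℓ α κ aY aV i.1 i.2 x ^ (1 / (1 + α)) else 0) ∂(iid ν)) -
      Real.exp (s * (β * j)) *
        ∫ x : ℕ → ℝ, AA K ℓ α κ aY aV i.1 i.2 x ^ (1 / (1 + α) - s) ∂(iid ν)) →
  (((II np J jj).filter (fun i => jj (i.2 - i.1) = j)).card : ℝ) * b ≤
    ∫ x : ℕ → ℝ, (if l0 K ℓ α β κ aY aV np J jj x = j then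
      w0 K ℓ α β κ aY aV np J jj x ^ (1 / (1 + α)) else 0) ∂(iid ν)

/-- CTB: the number of pairs of windows with the label `j`. -/
def T_CTB : Prop := ∀ (np J j : ℕ) (y : ℝ), 0 < y → y ≤ 1 → 3 ≤ j → j ≤ J →
  ((J : ℝ) + 2) / y ≤ np →
  (1 / y - 1) * (np - ((J : ℝ) + 2) / y) ≤
    ((((II np J (fun D => ⌊(D : ℝ) * y⌋₊ - 1)).filter
      (fun i => ⌊((i.2 - i.1 : ℕ) : ℝ) * y⌋₊ - 1 = j)).card : ℕ) : ℝ) ∧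
  ∀ i ∈ II np J (fun D => ⌊(D : ℝ) * y⌋₊ - 1), ⌊((i.2 - i.1 : ℕ) : ℝ) * y⌋₊ - 1 = j →
    (j : ℝ) + 1 ≤ ((i.2 - i.1 : ℕ) : ℝ) * y ∧ ((i.2 - i.1 : ℕ) : ℝ) * y < j + 2

/-- BLK: the first blocks. -/
def T_BLK : Prop := ∀ (K : PMF ℕ) (ν : Measure ℝ) [IsProbabilityMeasure ν],
  (∀ t : ℝ, Integrable (fun z => Real.exp (t * z)) ν) → ∀ (ℓ : ℕ) (α β κ s ϑ δ : ℝ),
  1 ≤ ℓ → 0 < α → α < 1 → 0 < κ → κ ≤ 1 → HK K ℓ α κ → 0 < s → s < 1 / (1 + α) → 0 < β →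
  0 < ϑ → 0 < δ → MM ν ℓ (1 / (1 + α)) δ ϑ s → ∀ (aY aV np J : ℕ) (y : ℝ), 1 ≤ aY → 1 ≤ aV →
  y = 2 * ϑ * ((aY + aV : ℕ) : ℝ) / β → y ≤ 1 → ((J : ℝ) + 2) / y ≤ np → ∀ t : ℕ → ℝ,
  (∀ j, 1 ≤ j → (j < 3 ∨ J < j) → t j ≤ 0) →
  (∀ j, 3 ≤ j → j ≤ J → ((np * (aY + aV) : ℕ) : ℝ) * t j ≤
    (1 / y - 1) * (np - ((J : ℝ) + 2) / y) *
      (((aV : ℝ) ^ 2) ^ (1 / (1 + α)) * κ ^ (1 / (1 + α)) /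
          ((j + 2) * β / (2 * ϑ) + ((aY + aV : ℕ) : ℝ)) *
        (Real.exp (-4 * ϑ) * Real.exp (-δ * ((j + 2) * β + 2 * ϑ * ((aY + aV : ℕ) : ℝ))) *
          (1 - np * Real.exp (-ϑ * aY / 4))) -
        Real.exp (s * (β * j)) * ((aV : ℝ) ^ 2 * (2 + Real.exp (2 * ϑ)) ^ 2 *
          Real.exp (-(1 / (1 + α) - s) * s * ((j + 1) * β - 2 * ϑ * ((aY + aV : ℕ) : ℝ)))))) →
  (∀ j, 3 ≤ j → j ≤ J → 0 ≤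
      (((aV : ℝ) ^ 2) ^ (1 / (1 + α)) * κ ^ (1 / (1 + α)) /
          ((j + 2) * β / (2 * ϑ) + ((aY + aV : ℕ) : ℝ)) *
        (Real.exp (-4 * ϑ) * Real.exp (-δ * ((j + 2) * β + 2 * ϑ * ((aY + aV : ℕ) : ℝ))) *
          (1 - np * Real.exp (-ϑ * aY / 4))) -
        Real.exp (s * (β * j)) * ((aV : ℝ) ^ 2 * (2 + Real.exp (2 * ϑ)) ^ 2 *
          Real.exp (-(1 / (1 + α) - s) * s * ((j + 1) * β - 2 * ϑ * ((aY + aV : ℕ) : ℝ)))))) →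
  0 ≤ 1 - np * Real.exp (-ϑ * aY / 4) →
  OBJ K ν ℓ α β (np * (aY + aV)) J t (np ^ 2 * aV ^ 2 * (2 + Real.exp (2 * ϑ)) ^ 2)
    (np ^ 2 * aV ^ 4 * Real.exp (8 * ϑ * ((np * (aY + aV) : ℕ) : ℝ)))

/-! ## E. Small `α` -/

/-- AS1: exponentials beat powers. -/
def T_AS1 : Prop := ∀ (c : ℕ) (a b : ℝ), 0 < a → 0 < b →
  (∀ᶠ α in 𝓝[>] (0 : ℝ), (1 / α) ^ c * Real.exp (-(b / α)) ≤ a) ∧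
  (∀ᶠ α in 𝓝[>] (0 : ℝ), (1 / α) ^ c * Real.exp (-(b / α ^ 2)) ≤ a) ∧
  (∀ᶠ α in 𝓝[>] (0 : ℝ), (1 / α) ^ c * Real.exp (-(b / Real.sqrt α)) ≤ a) ∧
  (∀ᶠ α : ℝ in 𝓝[>] (0 : ℝ), 1 - a ≤ α ^ ((c : ℝ) * α) ∧ a ≤ 1 / α)

/-- AS2: sums of powers. -/
def T_AS2 : Prop := ∀ (α : ℝ), 0 < α → (∀ a b : ℕ, 1 ≤ a → a ≤ b →
    ((a : ℝ) ^ (-α) - (b : ℝ) ^ (-α)) / α ≤ ∑ s ∈ Finset.Ico a b, (s : ℝ) ^ (-(1 + α))) ∧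
  (∀ a b : ℕ, 2 ≤ a → ∑ s ∈ Finset.Ico a b, (s : ℝ) ^ (-(1 + α)) ≤ 1 / α) ∧
  ∀ G : ℕ, 1 ≤ G → Real.log G - 2 ≤ ∑ g ∈ Finset.Ico 2 (G + 2), 1 / ((g : ℝ) + 1) ∧
    ∑ g ∈ Finset.Ico 2 (G + 2), 1 / ((g : ℝ) + 1) ≤ 1 + Real.log G

/-- BSA: the first blocks. -/
def T_BSA : Prop := ∀ (d ϑ s e1 η e : ℝ) (J : ℕ), 0 < d → 0 < ϑ → ϑ ≤ 1 / 2 → 0 < s →
  s * (4 * (J + 1)) ≤ 1 → 0 < e1 → e1 < 1 → 0 < η → 0 ≤ e → e < e1 * Real.exp (-4 * ϑ) →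
  OBb d ϑ s e1 η J (t0 d η e J)

/-- DSA: dressing. -/
def T_DSA : Prop := ∀ (d ϑ s e1 η e : ℝ) (J : ℕ) (t : ℕ → ℝ), 0 < d → 0 < ϑ → ϑ ≤ 1 / 16 →
  0 < e1 → e1 < 1 → 0 < η → OBb d ϑ s e1 η J t → (∀ j, 0 ≤ t j) → 0 ≤ e →
  e * (2 - e1 * (1 - 2 * Real.sqrt ϑ)) ^ 2 < 1 → OBs d ϑ s e1 η 0 J (fun j => e * t j)

/-- STA: one step. -/
def T_STA : Prop := ∀ (d ϑ s e1 η e : ℝ) (l J ms : ℕ) (t : ℕ → ℝ), 0 < d → 0 < ϑ → 0 < e →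
  e < e1 → e1 < 1 → 0 < η → 1 ≤ ms → OBs d ϑ s e1 η l J t → (∀ j, 0 ≤ t j) →
  OBs d ϑ s e1 η (l + 1) (ms * J) (nx t (l + 3) ms (e * η) e)

/-- FNA: the final chain. -/
def T_FNA : Prop := ∀ (d ϑ s e1 η e : ℝ) (l J : ℕ) (t : ℕ → ℝ), 0 < d → 0 < ϑ → 0 < e →
  e < e1 → e1 < 1 → 0 < η → OBs d ϑ s e1 η l J t → (∀ j, 0 ≤ t j) →
  1 < e * η * ∑ j ∈ Finset.Icc (l + 3) J, t j →
  ∀ᶠ α in 𝓝[>] (0 : ℝ), ∀ (K : PMF ℕ) (ν : Measure ℝ) (ℓ : ℕ), HY d ϑ s e1 α K ν ℓ →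
    ∃ (n : ℕ) (s' : ℝ), 1 ≤ n ∧ 0 < s' ∧ 4 * n / (e1 * α / 2) <
      s' * (iid ν).real {x : ℕ → ℝ | s' ≤ WB K ℓ n x ^ (1 / (1 + α))}

/-! ## F. Numbers -/

/-- NA1: generating functions inside the unit disc. -/
def T_NA1 : Prop := ∀ (f g : ℕ → ℝ) (η z : ℝ), 0 < η → (∀ U, 0 ≤ f U) → f 0 = 0 →
  Summable f → η * ∑' U, f U ≤ 1 → 0 ≤ z → z < 1 →
  (∀ U, g U = if U = 0 then 0 else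
    ∑ m ∈ Finset.range (U + 1), η ^ m * pw f (m + 1) (U + 1)) →
  Summable (fun U => g U * z ^ U) ∧ η * ∑' U, f U * z ^ U < 1 ∧
  η * ∑' U, f U * z ^ U =
    (1 - η * ∑' U, f U * z ^ U) * (z * (η * ∑' U, g U * z ^ U + η * f 1))

/-- NA2: the limit at one. -/
def T_NA2 : Prop := ∀ (f g : ℕ → ℝ) (η : ℝ), 0 < η → (∀ U, 0 ≤ f U) → f 0 = 0 →
  Summable f → η * ∑' U, f U ≤ 1 → Summable g →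
  (∀ U, g U = if U = 0 then 0 else
    ∑ m ∈ Finset.range (U + 1), η ^ m * pw f (m + 1) (U + 1)) →
  η * ∑' U, f U = (1 - η * ∑' U, f U) * (η * ∑' U, g U + η * f 1) ∧
  Tendsto (fun z : ℝ => η * ∑' U, f U * z ^ U) (𝓝[<] 1) (𝓝 (η * ∑' U, f U))

/-- NA3: the values at one. -/
def T_NA3 : Prop := ∀ a b q : ℕ → ℝ, (∀ l, 0 ≤ a l ∧ a l < 1 ∧ 0 ≤ b l ∧
    a l = (1 - a l) * (a (l + 1) + b l)) → (∀ l, q l = ∏ i ∈ Finset.range l, (1 - a i)) →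
  (∀ L, a 0 = ∑ l ∈ Finset.range L, b l * q (l + 1) + q L * a L) ∧
  (∀ L, ∑ l ∈ Finset.range L, ((l : ℝ) + 1) * (b l * q (l + 1)) ≤ 1) ∧
  Tendsto (fun L => q L * a L) atTop (𝓝 0)

/-- NA4: the slope at one propagates. -/
def T_NA4 : Prop := ∀ (A : ℕ → ℝ → ℝ) (a b : ℕ → ℝ), (∀ l, 0 ≤ a l ∧ a l < 1 ∧ 0 ≤ b l ∧
    a l = (1 - a l) * (a (l + 1) + b l)) →
  (∀ l z, 0 ≤ z → z < 1 → 0 ≤ A l z ∧ A l z ≤ a l ∧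
    A l z = (1 - A l z) * (z * (A (l + 1) z + b l))) →
  (∀ l, Tendsto (A l) (𝓝[<] 1) (𝓝 (a l))) → ∀ c : ℝ, 1 / 2 < c →
  (∀ᶠ z in 𝓝[<] (1 : ℝ), c * (1 - z) ≤ a 0 - A 0 z) →
  ∀ l, ∀ᶠ z in 𝓝[<] (1 : ℝ), c * (1 - z) ≤ a l - A l z

/-- NA5: the slope is at most one half. -/
def T_NA5 : Prop := ∀ (A : ℕ → ℝ → ℝ) (a b : ℕ → ℝ), (∀ l, 0 ≤ a l ∧ a l < 1 ∧ 0 ≤ b l ∧
    a l = (1 - a l) * (a (l + 1) + b l)) →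
  (∀ l z, 0 ≤ z → z < 1 → 0 ≤ A l z ∧ A l z ≤ a l ∧
    A l z = (1 - A l z) * (z * (A (l + 1) z + b l))) →
  (∀ l, Tendsto (A l) (𝓝[<] 1) (𝓝 (a l))) → ∀ c : ℝ, 1 / 2 < c → c ≤ 1 →
  ¬ ∀ᶠ z in 𝓝[<] (1 : ℝ), c * (1 - z) ≤ a 0 - A 0 z

/-- BUP: blow-up of the recursion. -/
def T_BUP : Prop := ∀ (f : ℕ → ℝ) (η : ℝ), 0 < η → (∀ U, 0 ≤ f U) →
  (∃ N : ℕ, 1 / 2 < η * ∑ U ∈ Finset.range N, U * f U) →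
  ∃ l N : ℕ, 1 < η * ∑ U ∈ Finset.range N, Fl η f l U

/-- NU2: the slope of the first level. -/
def T_NU2 : Prop := ∀ d : ℝ, 0 < d → d < 2 → ∃ η : ℝ, 0 < η ∧ ∃ N : ℕ,
  1 / 2 < η * ∑ U ∈ Finset.range N, U * (Real.exp (-d * (U + 4) * η) / (U + 4))

/-- NUS: the levels without errors. -/
def T_NUS : Prop := ∀ (d η : ℝ) (J ms l U : ℕ), 1 ≤ U → U + l + 2 ≤ J → U + l ≤ ms →
  tl d η 1 J ms l (U + l + 2) = Fl η (fun U => Real.exp (-d * (U + 4) * η) / (U + 4)) l U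

/-- NUC: continuity. -/
def T_NUC : Prop := ∀ (d η : ℝ) (J ms l j : ℕ),
  Continuous (fun e : ℝ => tl d η e J ms l j) ∧ (0 ≤ η → ∀ e : ℝ, 0 ≤ e → 0 ≤ tl d η e J ms l j)

/-- NUM: the numbers. -/
def T_NUM : Prop := ∀ d : ℝ, 0 < d → d < 2 → ∃ η : ℝ, 0 < η ∧ ∃ (l ms J : ℕ), 1 ≤ ms ∧
  ∃ e0 : ℝ, 0 < e0 ∧ e0 < 1 ∧ ∀ e : ℝ, e0 < e → e ≤ 1 →
    1 < e * η * ∑ j ∈ Finset.Icc (l + 3) (ms ^ l * J), tl d η e J ms l j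

/-! ## G. Asymptotics -/

/-- UUS: sharp lower bound of the renewal mass. -/
def T_UUS : Prop := ∀ (α : ℝ), 0 < α → α < 1 → ∀ (K : PMF ℕ), K 0 = 0 → ∀ cK : ℝ, 0 < cK →
  Tendsto (fun n : ℕ => (K n).toReal * (n : ℝ) ^ (1 + α)) atTop (𝓝 cK) → ∀ r : ℝ, r < 1 →
  ∀ᶠ n : ℕ in atTop, r * (α * (1 - α) / cK) * (n : ℝ) ^ α ≤ UU K n

/-- VVS: sharp lower bound of the mass of the pairs. -/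
def T_VVS : Prop := ∀ (α : ℝ), 0 < α → α < 1 → ∀ (K : PMF ℕ), K 0 = 0 → ∀ cK : ℝ, 0 < cK →
  Tendsto (fun n : ℕ => (K n).toReal * (n : ℝ) ^ (1 + α)) atTop (𝓝 cK) → ∀ r : ℝ, r < 1 →
  ∀ᶠ n : ℕ in atTop, r * (α * (1 - α) / (cK * (1 + α))) * (n : ℝ) ^ (1 + α) ≤ VV K n

/-- HKS: the jump law on the scale of the cells. -/
def T_HKS : Prop := ∀ (α e1 : ℝ), 0 < α → α < 1 → 0 < e1 → e1 * (1 + α) < 1 - α →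
  ∀ (K : PMF ℕ), K 0 = 0 → ∀ cK : ℝ, 0 < cK →
  Tendsto (fun n : ℕ => (K n).toReal * (n : ℝ) ^ (1 + α)) atTop (𝓝 cK) →
  ∃ (c : ℝ) (n0 : ℕ), 0 < c ∧ (∀ n : ℕ, n0 ≤ n → c * (n : ℝ) ^ (-(1 + α)) ≤ kk K n) ∧
  ∀ᶠ ℓ : ℕ in atTop, HK K ℓ α (e1 * α / 2) ∧
    e1 * α / 2 ≤ VV K ℓ * (c / 2) * (ℓ : ℝ) ^ (-(1 + α))

/-- MOL: exponential moments on the scale of the cells. -/
def T_MOL : Prop := ∀ (μ : Measure ℝ) [IsProbabilityMeasure μ],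
  (∀ t : ℝ, Integrable (fun z => Real.exp (t * z)) μ) → ∫ z, z ∂μ = 0 → ∫ z, z ^ 2 ∂μ = 1 →
  ∀ (g ϑ u : ℝ), 0 < ϑ → Tendsto (fun lam : ℝ =>
    Mo (μ.map (fun z => -2 * lam * (z + g * lam))) u ^ ⌈ϑ / lam ^ 2⌉₊) (𝓝[>] (0 : ℝ))
    (𝓝 (Real.exp (ϑ * (2 * u ^ 2 - 2 * g * u))))

/-- MOE: the numbers `MM`. -/
def T_MOE : Prop := ∀ (μ : Measure ℝ) [IsProbabilityMeasure μ],
  (∀ t : ℝ, Integrable (fun z => Real.exp (t * z)) μ) → ∫ z, z ∂μ = 0 → ∫ z, z ^ 2 ∂μ = 1 →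
  ∀ (γ δ ϑ s : ℝ), 9 / 10 ≤ γ → γ < 1 → 0 < δ → δ ≤ 1 / 100 → 0 < ϑ → 0 < s → s < 1 / 2 →
  ∀ᶠ lam in 𝓝[>] (0 : ℝ),
    MM (μ.map (fun z => -2 * lam * (z + (γ + δ) * lam))) ⌈ϑ / lam ^ 2⌉₊ γ δ ϑ s

/-- LOW: the lower bound of the gap. -/
def T_LOW : Prop := ∀ ε : ℝ, 0 < ε → ∀ᶠ α in 𝓝[>] (0 : ℝ), ∀ (K : PMF ℕ), K 0 = 0 →
  ∀ cK : ℝ, 0 < cK →
  Tendsto (fun n : ℕ => (K n).toReal * (n : ℝ) ^ (1 + α)) atTop (𝓝 cK) →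
  ∀ (μ : Measure ℝ) [IsProbabilityMeasure μ],
  (∀ t : ℝ, Integrable (fun z => Real.exp (t * z)) μ) → ∫ z, z ∂μ = 0 → ∫ z, z ^ 2 ∂μ = 1 →
  ∀ᶠ lam in 𝓝[>] (0 : ℝ), 1 / (1 + α) + (2 - ε) * α ^ 2 ≤ criticalCurve K μ lam / lam

end Pool.Agent.H98.CE
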