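import Pool.Agent.H55.CG.All
import Pool.Agent.H98.CE.ASM
import Pool.Agent.H1.CEL.BK1
import Pool.Agent.H1.CEL.CLO
import Pool.Agent.H11.CEL.CHN
import Pool.Agent.H11.CEL.DRB
import Pool.Agent.H11.CEL.PCB
import Pool.Agent.H11.CEL.PXS
import Pool.Agent.H11.CEL.SLM
import Pool.Agent.H11.CEL.ST1
import Pool.Agent.H11.CEL.ST3
import Pool.Agent.H17.CEL.CNT
import Pool.Agent.H17.CEL.TL2
import Pool.Agent.H36.CEL.DS1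
import Pool.Agent.H41.CE.DS3
import Pool.Agent.H46.CEL.DSA
import Pool.Agent.H5.CE.CMP
import Pool.Agent.H51.CE.BK2
import Pool.Agent.H51.CE.GLU
import Pool.Agent.H51.CE.HKS
import Pool.Agent.H53.CEL.AAB
import Pool.Agent.H53.CEL.OMN
import Pool.Agent.H54.CEL.NUC
import Pool.Agent.H59.CE.DRS
import Pool.Agent.H59.CE.LIS
import Pool.Agent.H59.CE.LIT
import Pool.Agent.H59.CE.PHI
import Pool.Agent.H59.CE.ST2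
import Pool.Agent.H59.CE.STP
import Pool.Agent.H59.CE.TL1
import Pool.Agent.H61.CE.DRA
import Pool.Agent.H62.CEL.CHF
import Pool.Agent.H62.CEL.END
import Pool.Agent.H67.CEL.BK3
import Pool.Agent.H67.CEL.BL2
import Pool.Agent.H67.CEL.PXC
import Pool.Agent.H67.CEL.SFB
import Pool.Agent.H68.CEL.AAM
import Pool.Agent.H68.CEL.DRE
import Pool.Agent.H68.CEL.FWB
import Pool.Agent.H68.CEL.NA2
import Pool.Agent.H68.CEL.NUS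
import Pool.Agent.H68.CEL.STB
import Pool.Agent.H73.CEL.BSA
import Pool.Agent.H79.CEL.BUP
import Pool.Agent.H79.CEL.NA5
import Pool.Agent.H81.CEL.BLK
import Pool.Agent.H81.CEL.CTB
import Pool.Agent.H81.CEL.DS2
import Pool.Agent.H91.CEL.AS
import Pool.Agent.H91.CEL.BL3
import Pool.Agent.H91.CEL.LS
import Pool.Agent.H91.CEL.NA
import Pool.Agent.H91.CEL.NUM
import Pool.Agent.H97.CEL.UUS
import Pool.Agent.H97.CEL.VVS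
import Pool.Agent.H98.CEL.AEX
import Pool.Agent.H98.CEL.BL1
import Pool.Agent.H98.CEL.FNA
import Pool.Agent.H98.CEL.MOL
import Pool.Agent.H98.CEL.STA

/-!
# The exact constant, lower half: all rows closed (helper98)
-/

set_option autoImplicit false

namespace Pool.Agent.H98.CE

open Pool.Agent.H98.CE

theorem c_AAM : T_AAM :=
  Pool.Agent.H68.CEL.pf_AAM

theorem c_AS1 : T_AS1 :=
  Pool.Agent.H91.CEL.pf_AS1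

theorem c_AS2 : T_AS2 :=
  Pool.Agent.H91.CEL.pf_AS2

theorem c_CTB : T_CTB :=
  Pool.Agent.H81.CEL.pf_CTB

theorem c_CVM : T_CVM :=
  Pool.Agent.H91.CEL.pf_CVM

theorem c_GLF : T_GLF :=
  Pool.Agent.H91.CEL.pf_GLF

theorem c_GLU : T_GLU :=
  Pool.Agent.H51.CE.pf_GLU c_GLF

theorem c_HLP : T_HLP :=
  Pool.Agent.H91.CEL.pf_HLP c_GLF

theorem c_LIT : T_LIT :=
  Pool.Agent.H59.CE.pf_LIT

theorem c_MOL : T_MOL :=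
  Pool.Agent.H98.CEL.pf_MOL

theorem c_NA1 : T_NA1 :=
  Pool.Agent.H91.CEL.pf_NA1

theorem c_NA2 : T_NA2 :=
  Pool.Agent.H68.CEL.pf_NA2 c_NA1

theorem c_NA3 : T_NA3 :=
  Pool.Agent.H91.CEL.pf_NA3

theorem c_NA4 : T_NA4 :=
  Pool.Agent.H91.CEL.pf_NA4

theorem c_NA5 : T_NA5 :=
  Pool.Agent.H79.CEL.pf_NA5 c_NA3 c_NA4

theorem c_NU2 : T_NU2 :=
  Pool.Agent.H54.CEL.pf_NU2

theorem c_NUC : T_NUC :=
  Pool.Agent.H54.CEL.pf_NUC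

theorem c_NUS : T_NUS :=
  Pool.Agent.H68.CEL.pf_NUS

theorem c_OMN : T_OMN :=
  Pool.Agent.H53.CEL.pf_OMN

theorem c_PCB : T_PCB :=
  Pool.Agent.H11.CEL.pf_PCB Pool.Agent.H55.CG.c_PZS Pool.Agent.H55.CG.c_PZM

theorem c_PHI : T_PHI :=
  Pool.Agent.H59.CE.pf_PHI

theorem c_PXS : T_PXS :=
  Pool.Agent.H11.CEL.pf_PXS c_PCB

theorem c_SFB : T_SFB :=
  Pool.Agent.H67.CEL.pf_SFB c_PCB

theorem c_SLM : T_SLM :=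
  Pool.Agent.H11.CEL.pf_SLM Pool.Agent.H55.CG.c_PZU Pool.Agent.H55.CG.c_PRE c_PCB

theorem c_STB : T_STB :=
  Pool.Agent.H68.CEL.pf_STB Pool.Agent.H55.CG.c_PZS Pool.Agent.H55.CG.c_PZU Pool.Agent.H55.CG.c_CHX c_PCB

theorem c_TL1 : T_TL1 :=
  Pool.Agent.H59.CE.pf_TL1 Pool.Agent.H55.CG.c_PRE

theorem c_TL2 : T_TL2 :=
  Pool.Agent.H17.CEL.pf_TL2 c_TL1 c_AAM

theorem c_UUS : T_UUS :=
  Pool.Agent.H97.CEL.pf_UUS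

theorem c_VVS : T_VVS :=
  Pool.Agent.H97.CEL.pf_VVS c_UUS

theorem c_AAB : T_AAB :=
  Pool.Agent.H53.CEL.pf_AAB c_PCB c_PXS c_STB

theorem c_AEX : T_AEX :=
  Pool.Agent.H98.CEL.pf_AEX c_PCB

theorem c_BK1 : T_BK1 :=
  Pool.Agent.H1.CEL.pf_BK1 c_AAB c_AAM

theorem c_BK2 : T_BK2 :=
  Pool.Agent.H51.CE.pf_BK2 c_AAB c_BK1

theorem c_BL1 : T_BL1 :=
  Pool.Agent.H98.CEL.pf_BL1 c_AEX c_AAM c_TL1

theorem c_BL2 : T_BL2 :=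
  Pool.Agent.H67.CEL.pf_BL2 Pool.Agent.H55.CG.c_PRE c_PCB c_AAM

theorem c_BL3 : T_BL3 :=
  Pool.Agent.H91.CEL.pf_BL3 c_AEX c_AAM c_TL1

theorem c_BUP : T_BUP :=
  Pool.Agent.H79.CEL.pf_BUP c_NA1 c_NA2 c_NA5

theorem c_CLO : T_CLO :=
  Pool.Agent.H1.CEL.pf_CLO c_GLF

theorem c_CMP : T_CMP :=
  Pool.Agent.H5.CE.pf_CMP Pool.Agent.H55.CG.c_PZS Pool.Agent.H55.CG.c_CHX c_PCB

theorem c_CNT : T_CNT :=
  Pool.Agent.H17.CEL.pf_CNT c_GLF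

theorem c_DRA : T_DRA :=
  Pool.Agent.H61.CE.pf_DRA c_PCB c_PXS c_CMP

theorem c_DRB : T_DRB :=
  Pool.Agent.H11.CEL.pf_DRB c_PCB c_PXS c_CMP

theorem c_DRE : T_DRE :=
  Pool.Agent.H68.CEL.pf_DRE c_PCB c_PXS c_DRA c_DRB

theorem c_FWB : T_FWB :=
  Pool.Agent.H68.CEL.pf_FWB c_PCB

theorem c_HKS : T_HKS :=
  Pool.Agent.H51.CE.pf_HKS c_VVS

theorem c_LIS : T_LIS :=
  Pool.Agent.H59.CE.pf_LIS c_LIT

theorem c_MOE : T_MOE :=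
  Pool.Agent.H98.CEL.pf_MOE c_MOL

theorem c_NUM : T_NUM :=
  Pool.Agent.H91.CEL.pf_NUM c_BUP c_NU2 c_NUS c_NUC

theorem c_PXC : T_PXC :=
  Pool.Agent.H67.CEL.pf_PXC c_PCB c_PXS c_CMP

theorem c_ST2 : T_ST2 :=
  Pool.Agent.H59.CE.pf_ST2 c_GLF c_GLU c_HLP c_CNT c_LIT c_LIS c_CVM

theorem c_ST3 : T_ST3 :=
  Pool.Agent.H11.CEL.pf_ST3 c_GLF c_GLU c_HLP c_CNT c_LIT

theorem c_BK3 : T_BK3 :=
  Pool.Agent.H67.CEL.pf_BK3 c_BK2 c_BL2 c_AAB c_AAM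

theorem c_BLK : T_BLK :=
  Pool.Agent.H81.CEL.pf_BLK c_BK1 c_BK2 c_BK3 c_BL1 c_BL2 c_BL3 c_TL2 c_CTB c_AAB c_AAM

theorem c_BSA : T_BSA :=
  Pool.Agent.H73.CEL.pf_BSA c_BLK c_OMN c_AS1

theorem c_CHN : T_CHN :=
  Pool.Agent.H11.CEL.pf_CHN c_GLF c_PCB c_PXS c_PXC

theorem c_DS1 : T_DS1 :=
  Pool.Agent.H36.CEL.pf_DS1 c_PCB c_PXS c_DRE c_FWB c_SFB

theorem c_DS2 : T_DS2 :=
  Pool.Agent.H81.CEL.pf_DS2 c_FWB c_SFB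

theorem c_DS3 : T_DS3 :=
  Pool.Agent.H41.CE.pf_DS3 c_FWB c_SFB

theorem c_END : T_END :=
  Pool.Agent.H62.CEL.pf_END Pool.Agent.H55.CG.c_RSL Pool.Agent.H55.CG.c_MAP c_PCB c_PXS c_PXC

theorem c_ST1 : T_ST1 :=
  Pool.Agent.H11.CEL.pf_ST1 c_GLF c_GLU c_HLP c_CHN c_CLO

theorem c_STP : T_STP :=
  Pool.Agent.H59.CE.pf_STP c_ST1 c_ST2 c_ST3 c_PHI

theorem c_CHF : T_CHF :=
  Pool.Agent.H62.CEL.pf_CHF c_GLF c_HLP c_CNT c_LIT c_CHN c_PHI Pool.Agent.H55.CG.c_LVL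

theorem c_DRS : T_DRS :=
  Pool.Agent.H59.CE.pf_DRS c_DS1 c_DS2 c_DS3 c_PHI

theorem c_DSA : T_DSA :=
  Pool.Agent.H46.CEL.pf_DSA c_DRS c_SLM c_OMN c_AS1 c_AS2

theorem c_FNA : T_FNA :=
  Pool.Agent.H98.CEL.pf_FNA c_CHF c_AS1 c_AS2

theorem c_STA : T_STA :=
  Pool.Agent.H98.CEL.pf_STA c_STP c_OMN c_AS1 c_AS2

/-- the lower half of the exact constant -/
theorem c_LOW : T_LOW :=
  pf_LOW c_NUM c_BSA c_DSA c_STA c_FNA c_NUC c_HKS c_MOE c_END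

end Pool.Agent.H98.CE
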