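import Pool.Agent.H55.CG.Defs

/-!
# The exact constant of the gap of the copolymer critical curve: definitions (helper98)

Problem `MP_65efe8_pr`. The charges are a sequence `x` of real numbers (`x i = -2 λ (ω i + h)`), cells
have `ℓ` sites: the cell `a` consists of the sites `a ℓ, ..., (a + 1) ℓ - 1`. `pz`, `VV`, `Mo` are
those of `Pool.Agent.H55.CG`.
-/

set_option autoImplicit false

open MeasureTheory ProbabilityTheory Filter Topology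
open Pool.Agent.H95 Pool.Agent.H95.Cop
open Pool.Agent.H55.CG (pz VV Mo)

namespace Pool.Agent.H98.CE

/-! ## Cells, boxes -/

/-- normalised pinned functional from the cell `a` to the cell `b` -/
noncomputable def pc (K : PMF ℕ) (ℓ : ℕ) (x : ℕ → ℝ) (a b : ℕ) : ℝ :=
  (∑ y ∈ Finset.Ico (a * ℓ) ((a + 1) * ℓ), ∑ z ∈ Finset.Ico (b * ℓ) ((b + 1) * ℓ),
    if y ≤ z then pz K x (z - y) y else 0) / VV K ℓ

/-- from the cells `a, ..., b - 1` to the cells `c, ..., d - 1` -/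
noncomputable def PX (K : PMF ℕ) (ℓ : ℕ) (x : ℕ → ℝ) (a b c d : ℕ) : ℝ :=
  ∑ u ∈ Finset.Ico a b, ∑ v ∈ Finset.Ico c d, pc K ℓ x u v

/-- the functional of a box of `n` cells -/
noncomputable def WB (K : PMF ℕ) (ℓ n : ℕ) (x : ℕ → ℝ) : ℝ := PX K ℓ x 0 n 0 n

/-- the weight of a jump over `d` cells -/
noncomputable def lk (α κ : ℝ) (d : ℕ) : ℝ := κ * (d : ℝ) ^ (-(1 + α))

/-- lower bound of the jump law -/
def HK (K : PMF ℕ) (ℓ : ℕ) (α κ : ℝ) : Prop :=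
  ∀ j : ℕ, ℓ ≤ j → κ * ((j : ℝ) / ℓ) ^ (-(1 + α)) ≤ kk K j / 2 * VV K ℓ

/-- small steps in the cell `a`, then the beginning of a long excursion below -/
noncomputable def Rr (K : PMF ℕ) (ℓ : ℕ) (x : ℕ → ℝ) (a : ℕ) : ℝ :=
  (∑ y ∈ Finset.Ico (a * ℓ) ((a + 1) * ℓ), ∑ y' ∈ Finset.Ico y ((a + 1) * ℓ),
    uu (kk K) (y' - y) * Real.exp (H x y y' / 2 + H x y' ((a + 1) * ℓ))) / VV K ℓ

/-- the end of a long excursion below, then small steps in the cell `b` -/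
noncomputable def Ll (K : PMF ℕ) (ℓ : ℕ) (x : ℕ → ℝ) (b : ℕ) : ℝ :=
  (∑ z ∈ Finset.Ico (b * ℓ) ((b + 1) * ℓ), ∑ z' ∈ Finset.Ico z ((b + 1) * ℓ),
    uu (kk K) (z' - z) * Real.exp (H x (b * ℓ) z + H x z z' / 2)) / VV K ℓ

/-- long excursion below from the cell `a` to the cell `b` (without the weight of the jump) -/
noncomputable def st (K : PMF ℕ) (ℓ : ℕ) (x : ℕ → ℝ) (a b : ℕ) : ℝ :=
  Rr K ℓ x a * Real.exp (H x ((a + 1) * ℓ) (b * ℓ)) * Ll K ℓ x b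

/-- the exponent of one term of `st`: `y ≤ y'` sites of the cell `a`, `z ≤ z'` sites of the cell `b` -/
noncomputable def ey (x : ℕ → ℝ) (y y' z z' : ℕ) : ℝ := H x y y' / 2 + H x y' z + H x z z' / 2

/-! ## The first blocks: `np` periods of `aY + aV` cells -/

/-- the charge of the measured cells of the period `k` -/
noncomputable def hy (ℓ aY aV : ℕ) (x : ℕ → ℝ) (k : ℕ) : ℝ :=
  H x (k * (aY + aV) * ℓ) ((k * (aY + aV) + aY) * ℓ)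

/-- the measured charges of exactly the periods `S + 1, ..., T` are positive -/
def sg (ℓ aY aV np S T : ℕ) (x : ℕ → ℝ) : Prop :=
  ∀ k < np, (0 < hy ℓ aY aV x k ↔ S < k ∧ k ≤ T)

/-- all stretches from the window of the period `S` to the window of the period `T` -/
noncomputable def AA (K : PMF ℕ) (ℓ : ℕ) (α κ : ℝ) (aY aV S T : ℕ) (x : ℕ → ℝ) : ℝ :=
  ∑ a ∈ Finset.Ico (S * (aY + aV) + aY) ((S + 1) * (aY + aV)),
    ∑ b ∈ Finset.Ico (T * (aY + aV) + aY) ((T + 1) * (aY + aV)),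
      lk α κ (b + 1 - a) * st K ℓ x a b

/-- the pairs of windows with labels between `3` and `J` (`jj` gives the label) -/
def II (np J : ℕ) (jj : ℕ → ℕ) : Finset (ℕ × ℕ) :=
  (Finset.range np ×ˢ Finset.range np).filter fun p => p.1 < p.2 ∧ 3 ≤ jj (p.2 - p.1) ∧
    jj (p.2 - p.1) ≤ J

open Classical in
/-- the functional of a first block -/
noncomputable def w0 (K : PMF ℕ) (ℓ : ℕ) (α β κ : ℝ) (aY aV np J : ℕ) (jj : ℕ → ℕ) (x : ℕ → ℝ) : ℝ :=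
  ∑ p ∈ II np J jj, if sg ℓ aY aV np p.1 p.2 x ∧
    Real.exp (β * jj (p.2 - p.1)) ≤ AA K ℓ α κ aY aV p.1 p.2 x then AA K ℓ α κ aY aV p.1 p.2 x else 0

open Classical in
/-- the label of a first block -/
noncomputable def l0 (K : PMF ℕ) (ℓ : ℕ) (α β κ : ℝ) (aY aV np J : ℕ) (jj : ℕ → ℕ) (x : ℕ → ℝ) : ℕ :=
  ∑ p ∈ II np J jj, if sg ℓ aY aV np p.1 p.2 x ∧
    Real.exp (β * jj (p.2 - p.1)) ≤ AA K ℓ α κ aY aV p.1 p.2 x then jj (p.2 - p.1) else 0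

/-! ## Functionals with labels -/

/-- a functional `w` and a label `lab` of the boxes of `n` cells -/
structure Ob (K : PMF ℕ) (ν : Measure ℝ) (ℓ : ℕ) (α β : ℝ) (n J : ℕ) (t : ℕ → ℝ) (C E : ℝ)
    (w : (ℕ → ℝ) → ℝ) (lab : (ℕ → ℝ) → ℕ) : Prop where
  mw : Measurable w
  ml : Measurable lab
  dw : DepLt (n * ℓ) w
  dl : DepLt (n * ℓ) lab
  nonneg : ∀ x, 0 ≤ w x
  le : ∀ x, w x ≤ WB K ℓ n x
  zero : ∀ x, lab x = 0 → w x = 0
  low : ∀ x, lab x ≠ 0 → Real.exp (β * lab x) ≤ w x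
  labJ : ∀ x, lab x ≤ J
  i1 : Integrable (fun x => w x ^ (1 / (1 + α))) (iid ν)
  i2 : Integrable (fun x => w x ^ (2 / (1 + α))) (iid ν)
  dens : ∀ j, 1 ≤ j → n * t j ≤ ∫ x, (if lab x = j then w x ^ (1 / (1 + α)) else 0) ∂(iid ν)
  u1 : ∫ x, w x ^ (1 / (1 + α)) ∂(iid ν) ≤ n * C
  u2 : ∫ x, w x ^ (2 / (1 + α)) ∂(iid ν) ≤ E

/-- boxes of `n` cells have densities at least `t` -/
def OBJ (K : PMF ℕ) (ν : Measure ℝ) (ℓ : ℕ) (α β : ℝ) (n J : ℕ) (t : ℕ → ℝ) (C E : ℝ) : Prop :=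
  ∃ (w : (ℕ → ℝ) → ℝ) (lab : (ℕ → ℝ) → ℕ), Ob K ν ℓ α β n J t C E w lab

/-! ## Dressing by excursions above -/

/-- the functional of a single cell, at most one -/
noncomputable def qq (K : PMF ℕ) (ℓ : ℕ) (x : ℕ → ℝ) (c : ℕ) : ℝ := min 1 (pc K ℓ x c c)

/-- at most `k` excursions above before the cell `t` (jumps over `glo ≤ s < ghi` cells) -/
noncomputable def fw (K : PMF ℕ) (ℓ : ℕ) (α κ : ℝ) (n glo ghi : ℕ) (x : ℕ → ℝ) : ℕ → ℕ → ℝ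
  | 0, _ => 1
  | k + 1, t => 1 + ∑ s ∈ Finset.Ico glo ghi, lk α κ (s + n + 1) *
      (qq K ℓ x (t - s) * fw K ℓ α κ n glo ghi x k (t - s))

/-- at most `k` excursions above after the cell `0` -/
noncomputable def sf (K : PMF ℕ) (ℓ : ℕ) (α κ : ℝ) (n glo ghi : ℕ) : ℕ → (ℕ → ℝ) → ℝ
  | 0, _ => 1
  | k + 1, x => 1 + ∑ s ∈ Finset.Ico glo ghi, lk α κ (s + n + 1) *
      (qq K ℓ x s * sf K ℓ α κ n glo ghi k (shift ((s + 1) * ℓ) x))

/-- exactly the block `i` is active among the blocks `0, ..., M - 1` -/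
def oa (n ℓ M : ℕ) (lab : (ℕ → ℝ) → ℕ) (i : ℕ) (x : ℕ → ℝ) : Prop :=
  ∀ k < M, (1 ≤ lab (shift (k * (n * ℓ)) x) ↔ k = i)

open Classical in
/-- the dressed functional -/
noncomputable def dw (K : PMF ℕ) (ℓ : ℕ) (α κ : ℝ) (n glo ghi k M lo hi : ℕ) (w : (ℕ → ℝ) → ℝ)
    (lab : (ℕ → ℝ) → ℕ) (x : ℕ → ℝ) : ℝ :=
  ∑ i ∈ Finset.Ico lo hi, if oa n ℓ M lab i x then fw K ℓ α κ n glo ghi x k (i * n) *
    w (shift (i * (n * ℓ)) x) * sf K ℓ α κ n glo ghi k (shift ((i + 1) * (n * ℓ)) x) else 0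

open Classical in
/-- its label -/
noncomputable def dl (n ℓ M lo hi : ℕ) (lab : (ℕ → ℝ) → ℕ) (x : ℕ → ℝ) : ℕ :=
  ∑ i ∈ Finset.Ico lo hi, if oa n ℓ M lab i x then lab (shift (i * (n * ℓ)) x) else 0

/-! ## Chains of high boxes -/

/-- the product of a chain -/
noncomputable def cw (f : ℕ → ℝ) (r : ℕ → ℝ) : List ℕ → ℝ
  | [] => 0
  | [i] => f i
  | i :: j :: L => f i * r (j + 1 - i) * cw f r (j :: L)

/-- the product of the links of a chain -/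
noncomputable def lp (r : ℕ → ℝ) : List ℕ → ℝ
  | [] => 1
  | [_] => 1
  | i :: j :: L => r (j + 1 - i) * lp r (j :: L)

/-- the lists of `m + 1` numbers beginning with `i`, with steps between `2` and `G + 1` -/
def gl (G : ℕ) : ℕ → ℕ → Finset (List ℕ)
  | 0, i => {[i]}
  | m + 1, i => (Finset.Ico 2 (G + 2)).biUnion fun g => (gl G m (i + g)).image (List.cons i)

/-- the lists of at most `ms` numbers beginning below `A` -/
def GLs (G A ms : ℕ) : Finset (List ℕ) :=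
  (Finset.range A).biUnion fun i => (Finset.range ms).biUnion fun m => gl G m i

/-- the list of the high boxes -/
def hb (n ℓ thr M : ℕ) (lab : (ℕ → ℝ) → ℕ) (x : ℕ → ℝ) : List ℕ :=
  (List.range M).filter fun i => decide (thr ≤ lab (shift (i * (n * ℓ)) x))

/-- the functional of a box of `M` boxes -/
noncomputable def nw (α κ : ℝ) (n ℓ thr M G A ms : ℕ) (w : (ℕ → ℝ) → ℝ) (lab : (ℕ → ℝ) → ℕ)
    (x : ℕ → ℝ) : ℝ :=
  if hb n ℓ thr M lab x ∈ GLs G A ms then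
    cw (fun i => w (shift (i * (n * ℓ)) x)) (fun g => lk α κ (g * n)) (hb n ℓ thr M lab x) else 0

/-- its label -/
def nl (n ℓ thr M G A ms : ℕ) (lab : (ℕ → ℝ) → ℕ) (x : ℕ → ℝ) : ℕ :=
  if hb n ℓ thr M lab x ∈ GLs G A ms then
    ((hb n ℓ thr M lab x).map fun i => lab (shift (i * (n * ℓ)) x)).sum -
      ((hb n ℓ thr M lab x).length - 1) * (thr - 1) else 0

/-- sums over `m` numbers that are at least `thr`, with sum `s` -/
noncomputable def cv (t : ℕ → ℝ) (thr : ℕ) : ℕ → ℕ → ℝ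
  | 0, s => if s = 0 then 1 else 0
  | m + 1, s => ∑ j ∈ Finset.Icc thr s, t j * cv t thr m (s - j)

/-- the densities of the next level -/
noncomputable def nx (t : ℕ → ℝ) (thr ms : ℕ) (ω e : ℝ) (j : ℕ) : ℝ :=
  e * ∑ m ∈ Finset.range ms, ω ^ m * cv t thr (m + 1) (j + m * (thr - 1))

/-- the densities of the first level -/
noncomputable def t0 (d η e : ℝ) (J : ℕ) (j : ℕ) : ℝ :=
  if 3 ≤ j ∧ j ≤ J then e * Real.exp (-d * (j + 2) * η) / (j + 2) else 0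

/-- the densities of the level `l` -/
noncomputable def tl (d η e : ℝ) (J ms : ℕ) : ℕ → ℕ → ℝ
  | 0 => t0 d η e J
  | l + 1 => nx (tl d η e J ms l) (l + 3) ms (e * η) e

/-! ## Numbers -/

/-- the exponential moments of the charges -/
def MM (ν : Measure ℝ) (ℓ : ℕ) (γ δ ϑ s : ℝ) : Prop :=
  Mo ν γ ≤ 1 ∧ Mo ν (γ / 2) ≤ 1 ∧ Mo ν (γ - s) ≤ 1 ∧ Mo ν (1 / 2) ≤ 1 ∧
  Real.exp (-2 * ϑ * δ) ≤ Mo ν γ ^ ℓ ∧ Real.exp (-2 * ϑ) ≤ Mo ν (γ / 2) ^ ℓ ∧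
  Mo ν (γ / 2) ^ ℓ ≤ Real.exp (-ϑ / 4) * Mo ν γ ^ ℓ ∧
  Mo ν (γ - s) ^ ℓ ≤ Real.exp (-2 * ϑ * (γ - s) * s) ∧
  Mo ν 1 ^ ℓ ≤ Real.exp (2 * ϑ) ∧ Mo ν (-1 / 2) ^ ℓ ≤ Real.exp (2 * ϑ) ∧
  Mo ν (2 * γ) ^ ℓ ≤ Real.exp (8 * ϑ)

/-- the hypotheses on the law of the renewal process and of the charges -/
def HY (d ϑ s e α : ℝ) (K : PMF ℕ) (ν : Measure ℝ) (ℓ : ℕ) : Prop :=
  IsProbabilityMeasure ν ∧ (∀ t : ℝ, Integrable (fun z => Real.exp (t * z)) ν) ∧ 1 ≤ ℓ ∧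
  HK K ℓ α (e * α / 2) ∧ MM ν ℓ (1 / (1 + α)) (d * α ^ 2) ϑ s

/-- the first blocks have the densities `(α / 2) t` -/
def OBb (d ϑ s e η : ℝ) (J : ℕ) (t : ℕ → ℝ) : Prop :=
  ∃ c : ℕ, ∀ᶠ α in 𝓝[>] (0 : ℝ), ∀ (K : PMF ℕ) (ν : Measure ℝ) (ℓ : ℕ), HY d ϑ s e α K ν ℓ →
    ∃ n : ℕ, 1 ≤ n ∧ (n : ℝ) ≤ (1 / α) ^ c ∧
      OBJ K ν ℓ α (η / α ^ 2) n J (fun j => α / 2 * t j) ((1 / α) ^ c) (Real.exp ((1 / α) ^ c))

/-- the boxes of the level `l` have the densities `2 α t` -/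
def OBs (d ϑ s e η : ℝ) (l J : ℕ) (t : ℕ → ℝ) : Prop :=
  ∃ c : ℕ, ∀ᶠ α in 𝓝[>] (0 : ℝ), ∀ (K : PMF ℕ) (ν : Measure ℝ) (ℓ : ℕ), HY d ϑ s e α K ν ℓ →
    ∃ n : ℕ, 1 ≤ n ∧ (n : ℝ) ≤ Real.exp (η / α ^ 2 * (l + 1 / 2)) ∧
      OBJ K ν ℓ α (η / α ^ 2) n J (fun j => 2 * α * t j) ((1 / α) ^ c) (Real.exp ((1 / α) ^ c))

/-- the sequence space version: densities measured from the threshold -/
noncomputable def pw (f : ℕ → ℝ) : ℕ → ℕ → ℝ
  | 0, s => if s = 0 then 1 else 0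
  | m + 1, s => ∑ j ∈ Finset.range (s + 1), f j * pw f m (s - j)

/-- the recursion without errors -/
noncomputable def Fl (η : ℝ) (f : ℕ → ℝ) : ℕ → ℕ → ℝ
  | 0, U => if U = 0 then 0 else f U
  | l + 1, U => if U = 0 then 0 else
      ∑ m ∈ Finset.range (U + 1), η ^ m * pw (Fl η f l) (m + 1) (U + 1)

end Pool.Agent.H98.CE
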